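import Pool.Agent.W_7d29a1_Z59.TVA

/-!
STORM Z (MP_7d29a1_pr), second storey: every sequence of columns of bounded total variation meets few irregular cells.
`B k g` = the cell `(k, g)` is irregular (an event of the rows of the layer `k`), of small probability. (helper59)
-/

namespace Pool.Agent.W_7d29a1_Z59

open MeasureTheory ProbabilityTheory Filter Topology Finset
open Pool.Agent.W_7d29a1_F

noncomputable section

variable {μ : Measure ℝ}

/-- The generating function of the sequences of `M` columns from the column `g` of the layer `k`. -/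
def Zr (l : ℝ) (N : ℕ) (B : ℕ → ℤ → Set Env) : ℕ → ℕ → ℤ → Env → ℝ
  | 0 => fun _ _ _ => 1
  | M + 1 => fun k g η => (1 + (B k g).indicator (fun _ => l) η) *
      ∑ n ∈ Icc (-(N : ℤ)) N, Real.exp (-|(n : ℝ)|) * Zr l N B M (k + 1) (g + n) η

variable {l : ℝ} {N : ℕ} {B : ℕ → ℤ → Set Env}

theorem Zr_nonneg (hl : 0 ≤ l) : ∀ (M k : ℕ) (g : ℤ) (η : Env), 0 ≤ Zr l N B M k g η
  | 0, _, _, _ => zero_le_one
  | M + 1, k, g, η => mul_nonneg (add_nonneg zero_le_one (Set.indicator_nonneg (fun _ _ => hl) η))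
      (Finset.sum_nonneg fun n _ => mul_nonneg (Real.exp_nonneg _) (Zr_nonneg hl M _ _ η))

theorem Zr_meas (mB : ∀ k g, MeasurableSet (B k g)) : ∀ (M k : ℕ) (g : ℤ), Measurable (Zr l N B M k g)
  | 0, _, _ => measurable_const
  | M + 1, k, g => (measurable_const.add (measurable_const.indicator (mB k g))).mul
      (Finset.measurable_sum _ fun n _ => (Zr_meas mB M (k + 1) (g + n)).const_mul _)

theorem Zr_bdd (hl : 0 ≤ l) : ∀ (M k : ℕ) (g : ℤ) (η : Env), Zr l N B M k g η ≤ ((1 + l) * (2 * N + 1)) ^ M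
  | 0, _, _, _ => by simp [Zr]
  | M + 1, k, g, η => by
    have h1 : (1 + (B k g).indicator (fun _ => l) η) ≤ 1 + l := by
      have := Set.indicator_le_self' (s := B k g) (f := fun _ : Env => l) (fun _ _ => hl) η
      linarith
    have h2 : ∑ n ∈ Icc (-(N : ℤ)) N, Real.exp (-|(n : ℝ)|) * Zr l N B M (k + 1) (g + n) η ≤
        (2 * N + 1) * ((1 + l) * (2 * N + 1)) ^ M := by
      have h3 : ∀ n ∈ Icc (-(N : ℤ)) N, Real.exp (-|(n : ℝ)|) * Zr l N B M (k + 1) (g + n) η ≤
          ((1 + l) * (2 * N + 1)) ^ M := fun n _ => by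
        have h4 : Real.exp (-|(n : ℝ)|) ≤ 1 := Real.exp_le_one_iff.2 (neg_nonpos.2 (abs_nonneg _))
        calc _ ≤ 1 * Zr l N B M (k + 1) (g + n) η := mul_le_mul_of_nonneg_right h4 (Zr_nonneg hl _ _ _ _)
          _ ≤ _ := by
            rw [one_mul]
            exact Zr_bdd hl M _ _ _
      refine (Finset.sum_le_sum h3).trans (le_of_eq ?_)
      rw [Finset.sum_const, Int.card_Icc, nsmul_eq_mul]
      have : (((N : ℤ) + 1 - -(N : ℤ)).toNat : ℝ) = 2 * N + 1 := by
        have : ((N : ℤ) + 1 - -(N : ℤ)).toNat = 2 * N + 1 := by omega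
        rw [this]
        push_cast
        ring
      rw [this]
    have h5 : 0 ≤ ∑ n ∈ Icc (-(N : ℤ)) N, Real.exp (-|(n : ℝ)|) * Zr l N B M (k + 1) (g + n) η :=
      Finset.sum_nonneg fun n _ => mul_nonneg (Real.exp_nonneg _) (Zr_nonneg hl _ _ _ _)
    calc Zr l N B (M + 1) k g η ≤ (1 + l) * ((2 * N + 1) * ((1 + l) * (2 * N + 1)) ^ M) :=
          mul_le_mul h1 h2 h5 (by linarith)
      _ = _ := by ring

theorem Zr_dep {h : ℕ} {T₀ : ℤ} (dB : ∀ (k : ℕ) (g : ℤ) (η η' : Env),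
      (∀ q ∈ rows (T₀ + k * h) (T₀ + (k + 1) * h), η q = η' q) → (η ∈ B k g ↔ η' ∈ B k g)) :
    ∀ (M k : ℕ) (g : ℤ), DependsOn (Zr l N B M k g) (rows (T₀ + k * h) (T₀ + (k + M) * h))
  | 0, _, _ => fun _ _ _ => rfl
  | M + 1, k, g => by
    intro η η' hh
    have hMh : (0 : ℤ) ≤ (M : ℤ) * h := by positivity
    have hh0 : (0 : ℤ) ≤ (h : ℤ) := by positivity
    have h1 : (η ∈ B k g ↔ η' ∈ B k g) := dB k g η η' fun q hq => hh q ⟨hq.1, by
      have := hq.2
      push_cast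
      nlinarith⟩
    have h2 : (B k g).indicator (fun _ => l) η = (B k g).indicator (fun _ => l) η' := by
      by_cases hm : η ∈ B k g
      · rw [Set.indicator_of_mem hm, Set.indicator_of_mem (h1.1 hm)]
      · rw [Set.indicator_of_notMem hm, Set.indicator_of_notMem fun hm' => hm (h1.2 hm')]
    show (1 + (B k g).indicator (fun _ => l) η) * _ = (1 + (B k g).indicator (fun _ => l) η') * _
    rw [h2]
    congr 1
    refine Finset.sum_congr rfl fun n _ => ?_
    congr 1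
    refine Zr_dep dB M (k + 1) (g + n) fun q hq => hh q ⟨?_, ?_⟩
    · have := hq.1
      push_cast at this
      nlinarith
    · have := hq.2
      push_cast at this ⊢
      nlinarith

/-- The sum of `exp (-|n|)`. -/
theorem sum_exp_abs (N : ℕ) : ∑ n ∈ Icc (-(N : ℤ)) N, Real.exp (-|(n : ℝ)|) ≤ 4 := by
  have hρ1 : Real.exp (-1 : ℝ) < 1 / 2 := by
    rw [Real.exp_neg, inv_lt_comm₀ (Real.exp_pos _) (by norm_num)]
    have := Real.add_one_lt_exp (x := 1) one_ne_zero
    norm_num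
    linarith
  have h1 := Pool.Agent.W_7d29a1_G20.geom_abs (ρ := Real.exp (-1)) (Real.exp_nonneg _) (by linarith) N
  have h2 : ∀ n ∈ Icc (-(N : ℤ)) N, Real.exp (-|(n : ℝ)|) = Real.exp (-1) ^ n.natAbs := fun n _ => by
    rw [← Real.exp_nat_mul]
    congr 1
    have hk : ((n.natAbs : ℕ) : ℝ) = |(n : ℝ)| := by
      rw [← Int.cast_natCast, Int.natCast_natAbs, Int.cast_abs]
    rw [hk]
    ring
  rw [Finset.sum_congr rfl h2]
  refine h1.trans ?_
  rw [div_le_iff₀ (by linarith)]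
  linarith

theorem Zr_mean [IsProbabilityMeasure μ] (hl : 0 ≤ l) {h : ℕ} {T₀ : ℤ} (mB : ∀ k g, MeasurableSet (B k g))
    (dB : ∀ (k : ℕ) (g : ℤ) (η η' : Env),
      (∀ q ∈ rows (T₀ + k * h) (T₀ + (k + 1) * h), η q = η' q) → (η ∈ B k g ↔ η' ∈ B k g)) {p : ℝ} (hp : l * p ≤ 1)
    (hB : ∀ k g, (law μ).real (B k g) ≤ p) : ∀ (M k : ℕ) (g : ℤ), ∫ η, Zr l N B M k g η ∂(law μ) ≤ 8 ^ M
  | 0, _, _ => by simp [Zr]
  | M + 1, k, g => by
    obtain ⟨X, hX⟩ : ∃ X : Env → ℝ, X = fun η => 1 + (B k g).indicator (fun _ => l) η := ⟨_, rfl⟩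
    obtain ⟨Y, hY⟩ : ∃ Y : Env → ℝ, Y = fun η => ∑ n ∈ Icc (-(N : ℤ)) N, Real.exp (-|(n : ℝ)|) * Zr l N B M (k + 1) (g + n) η :=
      ⟨_, rfl⟩
    have hXm : Measurable X := by
      rw [hX]
      exact measurable_const.add (measurable_const.indicator (mB k g))
    have hYm : Measurable Y := by
      rw [hY]
      exact Finset.measurable_sum _ fun n _ => (Zr_meas mB M (k + 1) (g + n)).const_mul _
    have hXd : DependsOn X (rows (T₀ + k * h) (T₀ + (k + 1) * h)) := by
      intro η η' hh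
      have h1 := dB k g η η' hh
      rw [hX]
      show 1 + (B k g).indicator (fun _ => l) η = 1 + (B k g).indicator (fun _ => l) η'
      by_cases hm : η ∈ B k g
      · rw [Set.indicator_of_mem hm, Set.indicator_of_mem (h1.1 hm)]
      · rw [Set.indicator_of_notMem hm, Set.indicator_of_notMem fun hm' => hm (h1.2 hm')]
    have hYd : DependsOn Y (rows (T₀ + (k + 1 : ℕ) * h) (T₀ + ((k + 1 : ℕ) + M) * h)) := by
      intro η η' hh
      rw [hY]
      refine Finset.sum_congr rfl fun n _ => ?_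
      congr 1
      exact Zr_dep dB M (k + 1) (g + n) hh
    have hdis : Disjoint (rows (T₀ + k * h) (T₀ + (k + 1) * h)) (rows (T₀ + (k + 1 : ℕ) * h) (T₀ + ((k + 1 : ℕ) + M) * h)) := by
      rw [Set.disjoint_left]
      intro q h1 h2
      have h3 := h1.2
      have h4 := h2.1
      push_cast at h4
      linarith
    have h1 := integral_indep (μ := μ) (f := X) (g := Y) hXm hYm hXd hYd hdis
    have e1 : ∫ η, Zr l N B (M + 1) k g η ∂(law μ) = ∫ η, X η * Y η ∂(law μ) := by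
      rw [hX, hY]
      rfl
    rw [e1, h1]
    have hXi : ∫ η, X η ∂(law μ) ≤ 2 := by
      rw [hX]
      rw [integral_add (integrable_const _) ((integrable_const _).indicator (mB k g)), integral_indicator_const l (mB k g)]
      simp only [integral_const, probReal_univ, smul_eq_mul, mul_one]
      have := mul_le_mul_of_nonneg_left (hB k g) hl
      linarith
    have hZi : ∀ n : ℤ, Integrable (Zr l N B M (k + 1) (g + n)) (law μ) := fun n => by
      refine Integrable.mono' (integrable_const (((1 + l) * (2 * N + 1)) ^ M)) (Zr_meas mB M _ _).aestronglyMeasurable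
        (Filter.Eventually.of_forall fun η => ?_)
      rw [Real.norm_eq_abs, abs_of_nonneg (Zr_nonneg hl _ _ _ _)]
      exact Zr_bdd hl _ _ _ _
    have hYi : ∫ η, Y η ∂(law μ) ≤ 4 * 8 ^ M := by
      rw [hY, integral_finsetSum _ fun n _ => (hZi n).const_mul _]
      have h2 : ∀ n ∈ Icc (-(N : ℤ)) N, ∫ η, Real.exp (-|(n : ℝ)|) * Zr l N B M (k + 1) (g + n) η ∂(law μ) ≤
          Real.exp (-|(n : ℝ)|) * 8 ^ M := fun n _ => by
        rw [integral_const_mul]
        exact mul_le_mul_of_nonneg_left (Zr_mean hl mB dB hp hB M (k + 1) (g + n)) (Real.exp_nonneg _)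
      refine (Finset.sum_le_sum h2).trans ?_
      rw [← Finset.sum_mul]
      refine mul_le_mul_of_nonneg_right (sum_exp_abs N) (by positivity)
    have hX0 : 0 ≤ ∫ η, X η ∂(law μ) := integral_nonneg fun η => by
      rw [hX]
      exact add_nonneg zero_le_one (Set.indicator_nonneg (fun _ _ => hl) η)
    have hY0 : 0 ≤ ∫ η, Y η ∂(law μ) := integral_nonneg fun η => by
      rw [hY]
      exact Finset.sum_nonneg fun n _ => mul_nonneg (Real.exp_nonneg _) (Zr_nonneg hl _ _ _ _)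
    calc (∫ η, X η ∂(law μ)) * ∫ η, Y η ∂(law μ) ≤ 2 * (4 * 8 ^ M) := mul_le_mul hXi hYi hY0 (by norm_num)
      _ = _ := by ring

/-- One sequence. -/
theorem le_Zr (hl : 0 ≤ l) (η : Env) : ∀ (M k : ℕ) (g : ℕ → ℤ), (∀ j < M, |g (j + 1) - g j| ≤ N) →
    Real.exp (-∑ j ∈ range M, |((g (j + 1) - g j : ℤ) : ℝ)|) *
      ∏ j ∈ range M, (1 + (B (k + j) (g j)).indicator (fun _ => l) η) ≤ Zr l N B M k (g 0) η
  | 0, _, _, _ => by simp [Zr]
  | M + 1, k, g, hN => by
    have ih := le_Zr hl η M (k + 1) (fun j => g (j + 1)) fun j hj => hN (j + 1) (by omega)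
    rw [sum_range_succ', prod_range_succ']
    have e3 : ∏ j ∈ range M, (1 + (B (k + (j + 1)) (g (j + 1))).indicator (fun _ => l) η) =
        ∏ j ∈ range M, (1 + (B (k + 1 + j) (g (j + 1))).indicator (fun _ => l) η) :=
      Finset.prod_congr rfl fun j _ => by
        have : k + (j + 1) = k + 1 + j := by omega
        rw [this]
    rw [e3]
    show _ ≤ (1 + (B k (g 0)).indicator (fun _ => l) η) *
      ∑ n ∈ Icc (-(N : ℤ)) N, Real.exp (-|(n : ℝ)|) * Zr l N B M (k + 1) (g 0 + n) η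
    have h0 := hN 0 (by omega)
    rw [zero_add] at h0 ⊢
    rw [add_zero]
    have hmem : g 1 - g 0 ∈ Icc (-(N : ℤ)) N := Finset.mem_Icc.2 (abs_le.1 h0)
    have h1 : Real.exp (-|((g 1 - g 0 : ℤ) : ℝ)|) * Zr l N B M (k + 1) (g 1) η ≤
        ∑ n ∈ Icc (-(N : ℤ)) N, Real.exp (-|(n : ℝ)|) * Zr l N B M (k + 1) (g 0 + n) η := by
      have := Finset.single_le_sum (f := fun n : ℤ => Real.exp (-|(n : ℝ)|) * Zr l N B M (k + 1) (g 0 + n) η)
        (fun n _ => mul_nonneg (Real.exp_nonneg _) (Zr_nonneg hl _ _ _ _)) hmem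
      simp only [add_sub_cancel] at this
      exact this
    have h2 : 0 ≤ 1 + (B k (g 0)).indicator (fun _ => l) η :=
      add_nonneg zero_le_one (Set.indicator_nonneg (fun _ _ => hl) η)
    refine le_trans ?_ (mul_le_mul_of_nonneg_left h1 h2)
    rw [neg_add, Real.exp_add]
    have h3 := mul_le_mul_of_nonneg_left ih (Real.exp_nonneg (-|((g 1 - g 0 : ℤ) : ℝ)|))
    have h4 := mul_le_mul_of_nonneg_left h3 h2
    refine le_trans (le_of_eq ?_) h4
    ring

/-- **(REG) Every sequence of `M` columns of total variation at most `V M` meets at most `M / 4` irregular cells.** -/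
theorem regb [IsProbabilityMeasure μ] {h : ℕ} {T₀ : ℤ} (mB : ∀ k g, MeasurableSet (B k g))
    (dB : ∀ (k : ℕ) (g : ℤ) (η η' : Env),
      (∀ q ∈ rows (T₀ + k * h) (T₀ + (k + 1) * h), η q = η' q) → (η ∈ B k g ↔ η' ∈ B k g)) {p V : ℝ} (hp0 : 0 < p) (hp1 : p ≤ 1)
    (hp : p ≤ (Real.exp (-(V + 1)) / 8) ^ 4) (hB : ∀ k g, (law μ).real (B k g) ≤ p) (M N : ℕ) (g₀ : ℤ) :
    (law μ).real {η | ∃ g : ℕ → ℤ, g 0 = g₀ ∧ (∀ k < M, |g (k + 1) - g k| ≤ N) ∧
      ∑ k ∈ range M, |((g (k + 1) - g k : ℤ) : ℝ)| ≤ V * M ∧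
      (M : ℝ) / 4 ≤ ∑ k ∈ range M, (B k (g k)).indicator (fun _ => (1 : ℝ)) η} ≤ Real.exp (-(M : ℝ)) := by
  have hl : (0 : ℝ) ≤ 1 / p := by positivity
  have hmean := Zr_mean (μ := μ) (l := 1 / p) (N := N) (h := h) (T₀ := T₀) hl mB dB (p := p) (by field_simp; exact le_rfl) hB M 0 g₀
  have hint : Integrable (Zr (1 / p) N B M 0 g₀) (law μ) := by
    refine Integrable.mono' (integrable_const (((1 + 1 / p) * (2 * N + 1)) ^ M)) (Zr_meas mB M _ _).aestronglyMeasurable
      (Filter.Eventually.of_forall fun η => ?_)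
    rw [Real.norm_eq_abs, abs_of_nonneg (Zr_nonneg hl _ _ _ _)]
    exact Zr_bdd hl _ _ _ _
  obtain ⟨u, hu⟩ : ∃ u : ℝ, u = Real.exp (-(V * M)) * (1 / p) ^ ((M : ℝ) / 4) := ⟨_, rfl⟩
  have hu0 : 0 < u := by
    rw [hu]
    positivity
  have h1 := mul_meas_ge_le_integral_of_nonneg (μ := law μ) (Eventually.of_forall fun η => Zr_nonneg (N := N) (B := B) hl M 0 g₀ η)
    hint u
  have h2 : (law μ).real {η | ∃ g : ℕ → ℤ, g 0 = g₀ ∧ (∀ k < M, |g (k + 1) - g k| ≤ N) ∧
      ∑ k ∈ range M, |((g (k + 1) - g k : ℤ) : ℝ)| ≤ V * M ∧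
      (M : ℝ) / 4 ≤ ∑ k ∈ range M, (B k (g k)).indicator (fun _ => (1 : ℝ)) η} ≤
      (law μ).real {η | u ≤ Zr (1 / p) N B M 0 g₀ η} := by
    refine measureReal_mono ?_
    rintro η ⟨g, hg0, hgN, hgV, hgB⟩
    have h3 := le_Zr (B := B) (N := N) hl η M 0 g hgN
    simp only [zero_add] at h3
    rw [hg0] at h3
    refine le_trans ?_ h3
    rw [hu]
    refine mul_le_mul (Real.exp_le_exp.2 (neg_le_neg hgV)) ?_ (by positivity) (Real.exp_nonneg _)
    have h4 : ∀ k ∈ range M, (1 / p) ^ ((B k (g k)).indicator (fun _ => (1 : ℝ)) η) ≤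
        1 + (B k (g k)).indicator (fun _ => 1 / p) η := by
      intro k _
      by_cases hm : η ∈ B k (g k)
      · rw [Set.indicator_of_mem hm, Set.indicator_of_mem hm, Real.rpow_one]
        linarith
      · rw [Set.indicator_of_notMem hm, Set.indicator_of_notMem hm, Real.rpow_zero]
        linarith
    have h5 : (1 / p : ℝ) ^ ((M : ℝ) / 4) ≤ ∏ k ∈ range M, (1 / p) ^ ((B k (g k)).indicator (fun _ => (1 : ℝ)) η) := by
      rw [← Real.rpow_sum_of_pos (by positivity)]
      refine Real.rpow_le_rpow_of_exponent_le ?_ hgB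
      rw [le_div_iff₀ hp0, one_mul]
      exact hp1
    exact h5.trans (Finset.prod_le_prod (fun k _ => by positivity) h4)
  refine h2.trans ?_
  have h6 : u * (law μ).real {η | u ≤ Zr (1 / p) N B M 0 g₀ η} ≤ 8 ^ M := h1.trans hmean
  have h7 : (8 : ℝ) ^ M ≤ u * Real.exp (-(M : ℝ)) := by
    have h8 : (1 / p : ℝ) ^ ((M : ℝ) / 4) = ((1 / p) ^ (1 / 4 : ℝ)) ^ M := by
      rw [← Real.rpow_natCast, ← Real.rpow_mul (by positivity)]
      congr 1
      ring
    have h9 : 8 * Real.exp (V + 1) ≤ (1 / p) ^ (1 / 4 : ℝ) := by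
      have h10 : (8 * Real.exp (V + 1)) ^ 4 ≤ 1 / p := by
        rw [le_div_iff₀ hp0]
        calc (8 * Real.exp (V + 1)) ^ 4 * p ≤ (8 * Real.exp (V + 1)) ^ 4 * (Real.exp (-(V + 1)) / 8) ^ 4 :=
              mul_le_mul_of_nonneg_left hp (by positivity)
          _ = 1 := by
              rw [← mul_pow, Real.exp_neg]
              have : 8 * Real.exp (V + 1) * ((Real.exp (V + 1))⁻¹ / 8) = 1 := by
                field_simp
              rw [this, one_pow]
      calc 8 * Real.exp (V + 1) = ((8 * Real.exp (V + 1)) ^ 4) ^ (1 / 4 : ℝ) := by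
            rw [← Real.rpow_natCast, ← Real.rpow_mul (by positivity)]
            norm_num
        _ ≤ _ := Real.rpow_le_rpow (by positivity) h10 (by norm_num)
    rw [hu, h8]
    have h11 : (8 : ℝ) ^ M = Real.exp (-(V * M)) * (8 * Real.exp (V + 1)) ^ M * Real.exp (-(M : ℝ)) := by
      rw [mul_pow, ← Real.exp_nat_mul]
      have : Real.exp (-(V * M)) * (8 ^ M * Real.exp (M * (V + 1))) * Real.exp (-(M : ℝ)) =
          8 ^ M * (Real.exp (-(V * M)) * Real.exp (M * (V + 1)) * Real.exp (-(M : ℝ))) := by ring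
      rw [this, ← Real.exp_add, ← Real.exp_add]
      have : -(V * M) + M * (V + 1) + -(M : ℝ) = 0 := by ring
      rw [this, Real.exp_zero, mul_one]
    rw [h11]
    refine mul_le_mul_of_nonneg_right (mul_le_mul_of_nonneg_left ?_ (Real.exp_nonneg _)) (Real.exp_nonneg _)
    exact pow_le_pow_left₀ (by positivity) h9 M
  exact le_of_mul_le_mul_left (h6.trans h7) hu0

end

end Pool.Agent.W_7d29a1_Z59
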