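import Pool.Agent.W_7d29a1_Z59.DLrA

/-!
STORM Z (MP_7d29a1_pr), the decoupling of near ties at the scale `r`: polymer form.

Paths `S` (finite index type), `a S` = indicator of an event which does not depend on the sites of the cells and of
'`S` avoids `D`', `w S` = weight of `S` (does not depend on the cells), `Z` = partition function (nondecreasing),
`r S = o S c * K c + q S c`: ratio of the competitor classes, `K c` = kernel of the cell `c` between its two distinguished points,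
`o S c` does not depend on the cell `c`. The cell `c` is lucky if `e ^ t ≤ K c`. (helper59)
-/

namespace Pool.Agent.W_7d29a1_Z59

open MeasureTheory ProbabilityTheory Finset
open Pool.Agent.W_7d29a1_f21 Pool.Agent.W_7d29a1_X42 Pool.Agent.W_7d29a1_NP Pool.Agent.W_7d29a1_h48

noncomputable section

/-- The ramp: `1` up to `-2M`, `0` from `2M` on. -/
def ramp (M x : ℝ) : ℝ := max 0 (min 1 ((2 * M - x) / (4 * M)))

theorem ramp_nonneg (M x : ℝ) : 0 ≤ ramp M x := le_max_left _ _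

theorem ramp_le_one (M x : ℝ) : ramp M x ≤ 1 := max_le zero_le_one (min_le_left _ _)

theorem ramp_anti {M : ℝ} (hM : 0 < M) {x y : ℝ} (h : x ≤ y) : ramp M y ≤ ramp M x := by
  refine max_le_max le_rfl (min_le_min le_rfl ?_)
  exact div_le_div_of_nonneg_right (by linarith) (by linarith)

theorem measurable_ramp (M : ℝ) : Measurable (ramp M) := by
  unfold ramp
  fun_prop

/-- The ramp decreases near `0`. -/
theorem ramp_drop {M : ℝ} (hM : 0 < M) {x d : ℝ} (hx : |x| ≤ M) (hd : 0 ≤ d) :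
    min d M / (4 * M) ≤ ramp M x - ramp M (x + d) := by
  obtain ⟨h1, h2⟩ := abs_le.1 hx
  have h4 : 0 < 4 * M := by linarith
  have e1 : ramp M x = (2 * M - x) / (4 * M) := by
    unfold ramp
    rw [min_eq_right, max_eq_right]
    · exact div_nonneg (by linarith) h4.le
    · rw [div_le_one h4]
      linarith
  have h5 : ramp M (x + d) ≤ (2 * M - x - min d M) / (4 * M) := by
    have h6 : ramp M (x + d) ≤ ramp M (x + min d M) := ramp_anti hM (by
      have := min_le_left d M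
      linarith)
    refine h6.trans (le_of_eq ?_)
    have h7 : 0 ≤ min d M := le_min hd hM.le
    have h8 : min d M ≤ M := min_le_right _ _
    unfold ramp
    rw [min_eq_right, max_eq_right]
    · congr 1
      ring
    · exact div_nonneg (by linarith) h4.le
    · rw [div_le_one h4]
      linarith
  rw [e1]
  have h9 : (2 * M - x) / (4 * M) - (2 * M - x - min d M) / (4 * M) = min d M / (4 * M) := by
    rw [← sub_div]
    congr 1
    ring
  linarith

variable {ι : Type*} {κ : Type*} {σ : Type*} {μ : Measure ℝ}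

/-- The data of the decoupling at the scale of the cells. -/
structure Dlr (μ : Measure ℝ) (P : Finset σ) (Z : Finset κ) (p t : ℝ) (T : κ → Finset ι) (K : κ → (ι → ℝ) → ℝ)
    (a w : σ → (ι → ℝ) → ℝ) (Zf : (ι → ℝ) → ℝ) (r : σ → (ι → ℝ) → ℝ) (o q : σ → κ → (ι → ℝ) → ℝ) : Prop where
  p0 : 0 < p
  disj : ∀ z ∈ Z, ∀ z' ∈ Z, z ≠ z' → Disjoint (T z) (T z')
  Km : ∀ z ∈ Z, Measurable (K z)
  Kdep : ∀ z ∈ Z, DependsOn (K z) (T z : Set ι)
  Kmono : ∀ z ∈ Z, Monotone (K z)
  prob : ∀ z ∈ Z, (lw ι μ).real {g | Real.exp t ≤ K z g} = p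
  am : ∀ s ∈ P, Measurable (a s)
  a0 : ∀ s ∈ P, ∀ g, 0 ≤ a s g
  a1 : ∀ s ∈ P, ∀ g, a s g ≤ 1
  wm : ∀ s ∈ P, Measurable (w s)
  w0 : ∀ s ∈ P, ∀ g, 0 ≤ w s g
  awdep : ∀ s ∈ P, ∀ z ∈ Z, DependsOn (fun g => a s g * w s g) ((T z : Set ι)ᶜ)
  Zm : Measurable Zf
  Z0 : ∀ g, 0 < Zf g
  Zmono : Monotone Zf
  sum : ∀ g, ∑ s ∈ P, w s g ≤ Zf g
  rm : ∀ s ∈ P, Measurable (r s)
  r0 : ∀ s ∈ P, ∀ g, 0 < r s g
  om : ∀ s ∈ P, ∀ z ∈ Z, Measurable (o s z)
  o0 : ∀ s ∈ P, ∀ z ∈ Z, ∀ g, 0 ≤ o s z g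
  odep : ∀ s ∈ P, ∀ z ∈ Z, DependsOn (o s z) ((T z : Set ι)ᶜ)
  qmono : ∀ s ∈ P, ∀ z ∈ Z, MonoOn (T z : Set ι) (q s z)
  req : ∀ s ∈ P, ∀ z ∈ Z, ∀ g, r s g = o s z g * K z g + q s z g

/-- The ratio with the cell `z` boosted. -/
def rsh (t : ℝ) (K : κ → (ι → ℝ) → ℝ) (r : σ → (ι → ℝ) → ℝ) (o : σ → κ → (ι → ℝ) → ℝ) (s : σ) (z : κ)
    (g : ι → ℝ) : ℝ := r s g + o s z g * (max (K z g) (Real.exp t) - K z g)

variable {P : Finset σ} {Z : Finset κ} {p t : ℝ} {T : κ → Finset ι} {K : κ → (ι → ℝ) → ℝ}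
    {a w : σ → (ι → ℝ) → ℝ} {Zf : (ι → ℝ) → ℝ} {r : σ → (ι → ℝ) → ℝ} {o q : σ → κ → (ι → ℝ) → ℝ}

theorem Dlr.le_rsh (h : Dlr μ P Z p t T K a w Zf r o q) {s : σ} (hs : s ∈ P) {z : κ} (hz : z ∈ Z) (g : ι → ℝ) :
    r s g ≤ rsh t K r o s z g := by
  unfold rsh
  have h1 := h.o0 s hs z hz g
  have h2 : 0 ≤ max (K z g) (Real.exp t) - K z g := sub_nonneg.2 (le_max_left _ _)
  have := mul_nonneg h1 h2
  linarith

theorem Dlr.rsh_eq (h : Dlr μ P Z p t T K a w Zf r o q) {s : σ} (hs : s ∈ P) {z : κ} (hz : z ∈ Z) (g : ι → ℝ) :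
    rsh t K r o s z g = o s z g * max (K z g) (Real.exp t) + q s z g := by
  unfold rsh
  rw [h.req s hs z hz g]
  ring

theorem Dlr.rsh_mono (h : Dlr μ P Z p t T K a w Zf r o q) {s : σ} (hs : s ∈ P) {z : κ} (hz : z ∈ Z) :
    MonoOn (T z : Set ι) (rsh t K r o s z) := by
  intro g g' h1 h2
  rw [h.rsh_eq hs hz, h.rsh_eq hs hz]
  have e1 : o s z g = o s z g' := h.odep s hs z hz fun q hq => h2 q hq
  have e2 := h.qmono s hs z hz g g' h1 h2
  have e3 : max (K z g) (Real.exp t) ≤ max (K z g') (Real.exp t) := max_le_max (h.Kmono z hz h1) le_rfl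
  rw [e1]
  have := mul_le_mul_of_nonneg_left e3 (h.o0 s hs z hz g')
  linarith

theorem Dlr.rsh_meas (h : Dlr μ P Z p t T K a w Zf r o q) {s : σ} (hs : s ∈ P) {z : κ} (hz : z ∈ Z) :
    Measurable (rsh t K r o s z) :=
  (h.rm s hs).add ((h.om s hs z hz).mul (((h.Km z hz).max measurable_const).sub (h.Km z hz)))

/-- The sum over the paths of the weights times a function. -/
def Hs (P : Finset σ) (a w : σ → (ι → ℝ) → ℝ) (Zf : (ι → ℝ) → ℝ) (f : σ → (ι → ℝ) → ℝ) (g : ι → ℝ) : ℝ :=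
  ∑ s ∈ P, a s g * w s g / Zf g * f s g

theorem Dlr.aw_nonneg (h : Dlr μ P Z p t T K a w Zf r o q) {s : σ} (hs : s ∈ P) (g : ι → ℝ) :
    0 ≤ a s g * w s g / Zf g := div_nonneg (mul_nonneg (h.a0 s hs g) (h.w0 s hs g)) (h.Z0 g).le

theorem Dlr.Hs_nonneg (h : Dlr μ P Z p t T K a w Zf r o q) {f : σ → (ι → ℝ) → ℝ} {g : ι → ℝ}
    (hf : ∀ s ∈ P, 0 ≤ f s g) : 0 ≤ Hs P a w Zf f g :=
  Finset.sum_nonneg fun s hs => mul_nonneg (h.aw_nonneg hs g) (hf s hs)

theorem Dlr.Hs_le_one (h : Dlr μ P Z p t T K a w Zf r o q) {f : σ → (ι → ℝ) → ℝ} {g : ι → ℝ}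
    (hf1 : ∀ s ∈ P, f s g ≤ 1) : Hs P a w Zf f g ≤ 1 := by
  have h1 : Hs P a w Zf f g ≤ ∑ s ∈ P, w s g / Zf g := by
    refine Finset.sum_le_sum fun s hs => ?_
    have h2 : a s g * w s g / Zf g * f s g ≤ a s g * w s g / Zf g * 1 :=
      mul_le_mul_of_nonneg_left (hf1 s hs) (h.aw_nonneg hs g)
    refine h2.trans ?_
    rw [mul_one]
    refine div_le_div_of_nonneg_right ?_ (h.Z0 g).le
    exact mul_le_of_le_one_left (h.w0 s hs g) (h.a1 s hs g)
  refine h1.trans ?_
  rw [← Finset.sum_div, div_le_one (h.Z0 g)]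
  exact h.sum g

theorem Dlr.Hs_meas (h : Dlr μ P Z p t T K a w Zf r o q) {f : σ → (ι → ℝ) → ℝ} (hf : ∀ s ∈ P, Measurable (f s)) :
    Measurable (Hs P a w Zf f) :=
  Finset.measurable_sum _ fun s hs => (((h.am s hs).mul (h.wm s hs)).div h.Zm).mul (hf s hs)

variable [IsProbabilityMeasure μ]

/-- **(DLr)** The decoupling of near ties with cells: on the event `E` every near tied path gains `Γ` when the cells are
boosted one at a time. -/
theorem Dlr.main (h : Dlr μ P Z p t T K a w Zf r o q) {M : ℝ} (hM : 0 < M) {E : Set (ι → ℝ)} (hE : MeasurableSet E)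
    {Ga : ℝ} (hGa : ∀ g ∈ E, ∀ s ∈ P, a s g ≠ 0 → |Real.log (r s g)| ≤ M →
      Ga ≤ ∑ z ∈ Z, min (Real.log (rsh t K r o s z g) - Real.log (r s g)) M) (u : ℝ) :
    Ga / (4 * M) * ∫ g in E, Hs P a w Zf (fun s g => if |Real.log (r s g)| ≤ M then 1 else 0) g ∂(lw ι μ) ≤
      (1 / p) * Real.sqrt #Z * (u * ∫ g, Hs P a w Zf (fun s g => ramp M (Real.log (r s g))) g ∂(lw ι μ) +
        Real.exp (1 - u)) := by
  obtain ⟨H, hH⟩ : ∃ H : (ι → ℝ) → ℝ, H = Hs P a w Zf (fun s g => ramp M (Real.log (r s g))) := ⟨_, rfl⟩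
  obtain ⟨G, hG⟩ : ∃ G : κ → (ι → ℝ) → ℝ,
    G = fun z => Hs P a w Zf (fun s g => ramp M (Real.log (rsh t K r o s z g))) := ⟨_, rfl⟩
  rw [← hH]
  have hC : Cells μ Z p (fun z => {g | Real.exp t ≤ K z g}) T := by
    refine ⟨h.p0, fun z hz => measurableSet_le measurable_const (h.Km z hz), fun z hz g g' hg => ?_,
      fun z hz g g' hg hg1 => ?_, h.prob, h.disj⟩
    · show Real.exp t ≤ K z g ↔ Real.exp t ≤ K z g'
      rw [h.Kdep z hz hg]
    · exact le_trans (show Real.exp t ≤ K z g from hg1) (h.Kmono z hz hg)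
  have hHm : Measurable H := by
    rw [hH]
    exact h.Hs_meas fun s hs => (measurable_ramp M).comp (h.rm s hs).log
  have hH0 : ∀ g, 0 ≤ H g := fun g => by
    rw [hH]
    exact h.Hs_nonneg fun s _ => ramp_nonneg _ _
  have hH1 : ∀ g, H g ≤ 1 := fun g => by
    rw [hH]
    exact h.Hs_le_one fun s _ => ramp_le_one _ _
  have hGm : ∀ z ∈ Z, Measurable (G z) := fun z hz => by
    rw [hG]
    exact h.Hs_meas fun s hs => (measurable_ramp M).comp (h.rsh_meas hs hz).log
  have hG0 : ∀ z ∈ Z, ∀ g, 0 ≤ G z g := fun z _ g => by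
    rw [hG]
    exact h.Hs_nonneg fun s _ => ramp_nonneg _ _
  have hG1 : ∀ z ∈ Z, ∀ g, G z g ≤ 1 := fun z _ g => by
    rw [hG]
    exact h.Hs_le_one fun s _ => ramp_le_one _ _
  have hGmono : ∀ z ∈ Z, MonoOn (T z : Set ι) fun g => - G z g := by
    intro z hz g g' h1 h2
    refine neg_le_neg ?_
    rw [hG]
    refine Finset.sum_le_sum fun s hs => ?_
    have e1 : a s g * w s g = a s g' * w s g' := h.awdep s hs z hz fun q hq => h2 q hq
    have e2 : ramp M (Real.log (rsh t K r o s z g')) ≤ ramp M (Real.log (rsh t K r o s z g)) := by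
      refine ramp_anti hM (Real.log_le_log ((h.r0 s hs g).trans_le (h.le_rsh hs hz g)) ?_)
      exact h.rsh_mono hs hz g g' h1 h2
    have e3 : a s g' * w s g' / Zf g' ≤ a s g * w s g / Zf g := by
      rw [← e1]
      exact div_le_div_of_nonneg_left (mul_nonneg (h.a0 s hs g) (h.w0 s hs g)) (h.Z0 g) (h.Zmono h1)
    exact mul_le_mul e3 e2 (ramp_nonneg _ _) (h.aw_nonneg hs g)
  have hGH : ∀ z ∈ Z, ∀ g ∈ {g | Real.exp t ≤ K z g}, H g ≤ G z g := by
    intro z hz g hg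
    have hg' : Real.exp t ≤ K z g := hg
    rw [hG, hH]
    refine le_of_eq (Finset.sum_congr rfl fun s hs => ?_)
    show a s g * w s g / Zf g * ramp M (Real.log (r s g)) =
      a s g * w s g / Zf g * ramp M (Real.log (rsh t K r o s z g))
    unfold rsh
    rw [max_eq_left hg', sub_self, mul_zero, add_zero]
  have hdl := dlr hC hHm hH0 hH1 hGm hG0 hG1 hGmono hGH u
  refine le_trans ?_ hdl
  have hHi : Integrable H (lw ι μ) := bdd_integrable hHm (B := 1) fun g => by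
    rw [abs_of_nonneg (hH0 g)]
    exact hH1 g
  have hGi : ∀ z ∈ Z, Integrable (G z) (lw ι μ) := fun z hz => bdd_integrable (hGm z hz) (B := 1) fun g => by
    rw [abs_of_nonneg (hG0 z hz g)]
    exact hG1 z hz g
  have hdiff : ∀ z ∈ Z, ∀ g, 0 ≤ H g - G z g := by
    intro z hz g
    rw [sub_nonneg, hG, hH]
    refine Finset.sum_le_sum fun s hs => mul_le_mul_of_nonneg_left ?_ (h.aw_nonneg hs g)
    exact ramp_anti hM (Real.log_le_log (h.r0 s hs g) (h.le_rsh hs hz g))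
  have hsum : ∑ z ∈ Z, ∫ g, (H g - G z g) ∂(lw ι μ) = ∫ g, ∑ z ∈ Z, (H g - G z g) ∂(lw ι μ) :=
    (integral_finsetSum Z (f := fun z g => H g - G z g) fun z hz => hHi.sub (hGi z hz)).symm
  rw [hsum]
  have hSi : Integrable (fun g => ∑ z ∈ Z, (H g - G z g)) (lw ι μ) :=
    integrable_finsetSum _ fun z hz => hHi.sub (hGi z hz)
  have h1 : ∫ g in E, ∑ z ∈ Z, (H g - G z g) ∂(lw ι μ) ≤ ∫ g, ∑ z ∈ Z, (H g - G z g) ∂(lw ι μ) :=
    setIntegral_le_integral hSi (Filter.Eventually.of_forall fun g => Finset.sum_nonneg fun z hz => hdiff z hz g)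
  refine le_trans ?_ h1
  rw [← integral_const_mul]
  obtain ⟨f, hf⟩ : ∃ f : σ → (ι → ℝ) → ℝ, f = fun s g => if |Real.log (r s g)| ≤ M then 1 else 0 := ⟨_, rfl⟩
  have hfm : ∀ s ∈ P, Measurable (f s) := fun s hs => by
    rw [hf]
    exact Measurable.ite (measurableSet_le (measurable_norm.comp (h.rm s hs).log) measurable_const)
      measurable_const measurable_const
  have hf01 : ∀ s g, 0 ≤ f s g ∧ f s g ≤ 1 := fun s g => by
    rw [hf]
    show 0 ≤ (if |Real.log (r s g)| ≤ M then (1 : ℝ) else 0) ∧ (if |Real.log (r s g)| ≤ M then (1 : ℝ) else 0) ≤ 1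
    split_ifs
    · exact ⟨zero_le_one, le_rfl⟩
    · exact ⟨le_rfl, zero_le_one⟩
  rw [← hf]
  have hfi : Integrable (Hs P a w Zf f) (lw ι μ) := bdd_integrable (h.Hs_meas hfm) (B := 1) fun g => by
    rw [abs_of_nonneg (h.Hs_nonneg fun s _ => (hf01 s g).1)]
    exact h.Hs_le_one fun s _ => (hf01 s g).2
  refine setIntegral_mono_on (hfi.const_mul _).integrableOn hSi.integrableOn hE fun g hg => ?_
  have e1 : ∑ z ∈ Z, (H g - G z g) = ∑ s ∈ P, a s g * w s g / Zf g *
      ∑ z ∈ Z, (ramp M (Real.log (r s g)) - ramp M (Real.log (rsh t K r o s z g))) := by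
    have e2 : ∀ z, H g - G z g = ∑ s ∈ P, a s g * w s g / Zf g *
        (ramp M (Real.log (r s g)) - ramp M (Real.log (rsh t K r o s z g))) := by
      intro z
      rw [hG, hH]
      unfold Hs
      rw [← Finset.sum_sub_distrib]
      exact Finset.sum_congr rfl fun s _ => by ring
    simp only [e2]
    rw [Finset.sum_comm]
    exact Finset.sum_congr rfl fun s _ => by rw [Finset.mul_sum]
  rw [e1]
  unfold Hs
  rw [Finset.mul_sum]
  refine Finset.sum_le_sum fun s hs => ?_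
  have haw := h.aw_nonneg hs g
  have hterm : ∀ z ∈ Z, 0 ≤ ramp M (Real.log (r s g)) - ramp M (Real.log (rsh t K r o s z g)) := fun z hz =>
    sub_nonneg.2 (ramp_anti hM (Real.log_le_log (h.r0 s hs g) (h.le_rsh hs hz g)))
  have hsum0 := Finset.sum_nonneg hterm
  by_cases hr : |Real.log (r s g)| ≤ M
  · have hf1 : f s g = 1 := by
      rw [hf]
      exact if_pos hr
    rw [hf1, mul_one]
    by_cases ha : a s g = 0
    · rw [ha]
      simp
    · have h2 := hGa g hg s hs ha hr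
      have h3 : Ga / (4 * M) ≤ ∑ z ∈ Z, (ramp M (Real.log (r s g)) - ramp M (Real.log (rsh t K r o s z g))) := by
        have h4 : (∑ z ∈ Z, min (Real.log (rsh t K r o s z g) - Real.log (r s g)) M) / (4 * M) ≤
            ∑ z ∈ Z, (ramp M (Real.log (r s g)) - ramp M (Real.log (rsh t K r o s z g))) := by
          rw [Finset.sum_div]
          refine Finset.sum_le_sum fun z hz => ?_
          have h5 : 0 ≤ Real.log (rsh t K r o s z g) - Real.log (r s g) :=
            sub_nonneg.2 (Real.log_le_log (h.r0 s hs g) (h.le_rsh hs hz g))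
          have h6 := ramp_drop hM hr h5
          rw [add_sub_cancel] at h6
          exact h6
        exact (div_le_div_of_nonneg_right h2 (by linarith)).trans h4
      calc Ga / (4 * M) * (a s g * w s g / Zf g) ≤
            (∑ z ∈ Z, (ramp M (Real.log (r s g)) - ramp M (Real.log (rsh t K r o s z g)))) *
              (a s g * w s g / Zf g) := mul_le_mul_of_nonneg_right h3 haw
        _ = _ := mul_comm _ _
  · have hf0 : f s g = 0 := by
      rw [hf]
      exact if_neg hr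
    rw [hf0, mul_zero, mul_zero]
    exact mul_nonneg haw hsum0

/-- The gain of one cell: if the boosted cell multiplies the share `th` of the competitors by `e ^ g`. -/
theorem gain_cell {r th g : ℝ} (hr : 0 < r) (hth0 : 0 ≤ th) (hth1 : th ≤ 1) {r' : ℝ}
    (h : r * (1 + th * (Real.exp g - 1)) ≤ r') : th * g ≤ Real.log r' - Real.log r := by
  have h1 : 1 + th * (Real.exp g - 1) = th * Real.exp g + (1 - th) * Real.exp 0 := by
    rw [Real.exp_zero]
    ring
  have h2 : Real.exp (th * g) ≤ 1 + th * (Real.exp g - 1) := by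
    rw [h1]
    have h3 := convexOn_exp.2 (Set.mem_univ g) (Set.mem_univ 0) hth0 (sub_nonneg.2 hth1) (by ring)
    simp only [smul_eq_mul, mul_zero, add_zero] at h3
    simpa using h3
  have h4 : r * Real.exp (th * g) ≤ r' := (mul_le_mul_of_nonneg_left h2 hr.le).trans h
  have h5 := Real.log_le_log (by positivity) h4
  rw [Real.log_mul hr.ne' (Real.exp_pos _).ne', Real.log_exp] at h5
  linarith

end

end Pool.Agent.W_7d29a1_Z59
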