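import Pool.Agent.W_7d29a1_ZE.NTX
import Pool.Agent.W_7d29a1_Z74.BadDpr

/-!
STORM Z, second storey: the probability of the bad events of the depth for the classes (`Z74.BadDpr` with `depthC`).
(helper59, helper51)
-/

namespace Pool.Agent.W_7d29a1_ZE

open MeasureTheory ProbabilityTheory Filter Topology Finset
open Pool.Agent.W_7d29a1_F Pool.Agent.W_7d29a1_X Pool.Agent.W_7d29a1_G Pool.Agent.W_7d29a1_Z
open Pool.Agent.W_7d29a1_Z86 (sp1 sp2 Wd)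
open Pool.Agent.W_7d29a1_Z86.GX (WT)
open Pool.Agent.W_7d29a1_Z.R72
open Pool.Agent.W_7d29a1_Z36 (LocC BadC depthC)
open Pool.Agent.W_7d29a1_Z74 (IdxD card_IdxD P2_ex_le P2_and_le)
open scoped ENNReal

variable {μ : Measure ℝ}

theorem LocC.mono' {J J' : Finset ℕ} {C : (ℕ → ℤ) → Prop} (hC : LocC J C) (h : J ⊆ J') : LocC J' C :=
  fun p p' hp => hC p p' fun t ht => hp t (h ht)

/-- One bad event. -/
def EvX (μ : Measure ℝ) (N t τ : ℕ) (pr : Par) (I : Finset ℕ) (V : ℕ → ℤ) (lm : ℝ)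
    (i : (ℕ × ℕ) × (ℕ × ℕ) × (ℕ × ℕ × Finset ℕ) × (ℤ × ℤ)) (η : Env) (S S' : Finset ℕ) : Prop :=
  ((i.2.1.1 ≤ i.2.1.2 ∧ i.2.1.2 ≤ N) ∧ (∀ k ∈ i.2.2.1.2.2, i.2.1.1 < k ∧ k < i.2.1.2) ∧
      Pcs (pat t τ I V) i.2.1.1 i.2.1.2 i.2.2.1.2.2
        (Qp t τ i.1.1 i.1.2 (qlo t τ i.2.2.1.2.2 i.1.1 i.2.1.1) (qhi t τ i.2.2.1.2.2 i.1.2 i.2.1.2))) ∧
    BadC μ (pat t τ I V) i.2.1.1 i.2.1.2
      (Qp t τ i.1.1 i.1.2 (qlo t τ i.2.2.1.2.2 i.1.1 i.2.1.1) (qhi t τ i.2.2.1.2.2 i.1.2 i.2.1.2))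
      (cL (winE N 0 pr.a i.2.2.1 0 i.2.2.2.1 i.2.2.2.2))
      (cE μ (winE N 0 pr.a i.2.2.1 0 i.2.2.2.1 i.2.2.2.2) pr.L pr.e pr.C pr.i₀ pr.i₁) lm η S S'

theorem EvX_le [IsProbabilityMeasure μ] {N t τ : ℕ} {pr : Par} (hia : pr.i₁ ≤ pr.a) {I : Finset ℕ} {V : ℕ → ℤ} {lm : ℝ} {y : ℤ}
    (i : (ℕ × ℕ) × (ℕ × ℕ) × (ℕ × ℕ × Finset ℕ) × (ℤ × ℤ)) :
    P2 μ N y (pat t τ I V) (EvX μ N t τ pr I V lm i) ≤ ENNReal.ofReal (3 * Real.exp (-lm)) := by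
  refine P2_and_le fun hc => ?_
  obtain ⟨⟨c1, c2⟩, c4, c6⟩ := hc
  exact depthC (pat t τ I V) c1 c2 (fun k hk => ⟨(c4 k hk).1.le, (c4 k hk).2.le⟩) c6
    (LocC.mono' (locL _) (winE_JJ _ _ _ _ _ _ _)) (LocC.mono' (locE _ _ _ _ _ hia) (winE_JJ _ _ _ _ _ _ _)) lm

theorem badDX_sub {L N t τ k₀ k₁ e0 E : ℕ} {n1 : ℕ → ℕ} {pr : Par} {I : Finset ℕ} {V : ℕ → ℤ} (hN : N ≤ L) (hk₁ : k₁ ≤ L)
    (hE : 2 ^ (E + 3) ≤ L) {lm : ℝ} {η : Env} {S S' : Finset ℕ}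
    (h : (η, S, S') ∈ BadDX μ N t τ k₀ k₁ e0 E n1 pr I V lm) :
    ∃ b ∈ range (L + 1), ∃ i ∈ IdxD L N t τ k₀ e0 E n1 b, EvX μ N t τ pr I V lm i η S S' := by
  obtain ⟨l, r, b, a, b', -, hlr, hr, -, hb, hab, hbN, W, hW, sg, Y, hsg, hY, hJ, hP, hB⟩ := h
  have hWm := Pool.Agent.W_7d29a1_Z86.mem_Wd.1 hW
  obtain ⟨-, hWE, -, hj, hrow, -⟩ := hWm
  refine ⟨b, by rw [mem_range]; omega, ((l, r), (a, b'), W, (sg, Y)), ?_, ?_⟩
  · unfold IdxD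
    rw [mem_product, mem_product, mem_product, mem_product, mem_product, mem_product]
    refine ⟨⟨by rw [mem_range]; show l < L + 1; omega, by rw [mem_range]; show r < L + 1; omega⟩,
      ⟨by rw [mem_range]; show a < L + 1; omega, by rw [mem_range]; show b' < L + 1; omega⟩, hW, ?_, ?_⟩
    · show sg ∈ ({1, -1} : Finset ℤ)
      rw [mem_insert, mem_singleton]
      exact hsg
    · show Y ∈ Icc (-(2 * (L : ℤ))) (2 * L)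
      rw [mem_Icc]
      have h1 := pos_nonneg S' W.2.1
      have h2 := pos_le S' W.2.1
      have h3 := (hrow _ hj).2
      have h4 : ((2 ^ (W.1 + 3) : ℕ) : ℤ) ≤ L := by
        have : 2 ^ (W.1 + 3) ≤ 2 ^ (E + 3) := Nat.pow_le_pow_right (by norm_num) (by omega)
        exact_mod_cast this.trans hE
      have hY' : |sg * (2 * pos S' W.2.1 - W.2.1) - Y| ≤ ((2 ^ (W.1 + 3) : ℕ) : ℤ) := hY
      have h5 := abs_le.1 (hY'.trans h4)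
      rcases hsg with h6 | h6
      · rw [h6] at h5
        constructor <;> omega
      · rw [h6] at h5
        constructor <;> omega
  · exact ⟨⟨⟨hab, hbN⟩, hJ, hP⟩, hB⟩

/-- The bad events of the depth, for the classes. -/
theorem badDX_pr [IsProbabilityMeasure μ] {L N t τ k₀ k₁ e0 E X : ℕ}
    {n1 : ℕ → ℕ} {pr : Par} (hia : pr.i₁ ≤ pr.a) {I : Finset ℕ} {V : ℕ → ℤ} {y : ℤ}
    (h0 : 0 ≤ y) (h1 : y ≤ N) (hN : N ≤ L) (hk₁ : k₁ ≤ L) (hE : 2 ^ (E + 3) ≤ L)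
    (hX : ∀ b, (Wd N t τ k₀ n1 e0 E b).card ≤ X) {lm : ℝ} (_hlm : 0 ≤ lm) :
    (sp2 μ h0 h1 (pat t τ I V)).pr (BadDX μ N t τ k₀ k₁ e0 E n1 pr I V lm) ≤
      (10 * ((L : ℝ) + 1)) ^ 6 * X * Real.exp (-lm) := by
  show (P2 μ N y (pat t τ I V) fun η S S' => (η, S, S') ∈ BadDX μ N t τ k₀ k₁ e0 E n1 pr I V lm).toReal ≤ _
  have hin : ∀ b ∈ range (L + 1), P2 μ N y (pat t τ I V)
      (fun η S S' => ∃ i ∈ IdxD L N t τ k₀ e0 E n1 b, EvX μ N t τ pr I V lm i η S S') ≤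
        ENNReal.ofReal (8 * ((L : ℝ) + 1) ^ 5 * X * (3 * Real.exp (-lm))) := by
    intro b _
    refine (P2_ex_le _ _ fun i _ => EvX_le hia i).trans ?_
    rw [← ENNReal.ofReal_natCast, ← ENNReal.ofReal_mul (by positivity)]
    refine ENNReal.ofReal_le_ofReal ?_
    exact mul_le_mul_of_nonneg_right (card_IdxD (hX b)) (by positivity)
  have hout := P2_ex_le (μ := μ) (N := N) (y := y) (v := pat t τ I V) (range (L + 1))
    (fun b η S S' => ∃ i ∈ IdxD L N t τ k₀ e0 E n1 b, EvX μ N t τ pr I V lm i η S S') hin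
  rw [card_range, ← ENNReal.ofReal_natCast, ← ENNReal.ofReal_mul (by positivity)] at hout
  refine ENNReal.toReal_le_of_le_ofReal (by positivity) ?_
  refine le_trans (Pool.Agent.W_7d29a1_Z.P2_mono fun η S _ S' _ _ _ hx => badDX_sub hN hk₁ hE hx) ?_
  refine hout.trans (ENNReal.ofReal_le_ofReal ?_)
  push_cast
  have h2 : (0 : ℝ) ≤ ((L : ℝ) + 1) ^ 6 * X * Real.exp (-lm) := by positivity
  have h3 : ((L : ℝ) + 1) * (8 * ((L : ℝ) + 1) ^ 5 * X * (3 * Real.exp (-lm))) = 24 * (((L : ℝ) + 1) ^ 6 * X * Real.exp (-lm)) := by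
    ring
  have h4 : (10 * ((L : ℝ) + 1)) ^ 6 * X * Real.exp (-lm) = 1000000 * (((L : ℝ) + 1) ^ 6 * X * Real.exp (-lm)) := by ring
  rw [h3, h4]
  linarith

end Pool.Agent.W_7d29a1_ZE
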