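import Pool.Agent.W_7d29a1_NP.TubeA
import Pool.Agent.W_7d29a1_h48.Har

/-!
STORM Z (MP_7d29a1_pr), the decoupling of near ties at the scale `r`, abstract part.

`D c` = lucky events of the cells `c`, independent, of the same probability `p`, nondecreasing. `H` is a function with values
in `[0, 1]`, `G c` is nonincreasing in the cell `c` and equal to `H` when the cell `c` is lucky. Then
`sum_c E (H - G c) ≤ (1 / p) sqrt (#cells) (u E H + 2 e ^ (1 - u))`. (helper59)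
-/

namespace Pool.Agent.W_7d29a1_Z59

open MeasureTheory ProbabilityTheory Finset
open Pool.Agent.W_7d29a1_f21 Pool.Agent.W_7d29a1_X42 Pool.Agent.W_7d29a1_NP Pool.Agent.W_7d29a1_h48

noncomputable section

variable {ι : Type*} {κ : Type*} {μ : Measure ℝ} [IsProbabilityMeasure μ]

/-- Young's inequality for a function with values in `[0, 1]`. -/
theorem young {h y a : ℝ} (h0 : 0 ≤ h) (h1 : h ≤ 1) : h * y ≤ a * h + Real.exp (y - a) := by
  have h2 : h * (y - a) ≤ Real.exp (y - a) := by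
    rcases le_total (y - a) 0 with h3 | h3
    · exact (mul_nonpos_of_nonneg_of_nonpos h0 h3).trans (Real.exp_pos _).le
    · have h4 := Real.add_one_le_exp (y - a)
      have h5 : h * (y - a) ≤ 1 * (y - a) := mul_le_mul_of_nonneg_right h1 h3
      linarith
  linarith

theorem exp_quad {x : ℝ} (hx : |x| ≤ 1) : Real.exp x ≤ 1 + x + x ^ 2 := by
  have h1 := Real.abs_exp_sub_one_sub_id_le hx
  have h2 := (abs_le.1 h1).2
  linarith

/-- The exponential moment of a sum of independent bounded centred functions. -/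
theorem exp_sum {f : κ → (ι → ℝ) → ℝ} {T : κ → Set ι} {B : ℝ} (Z : Finset κ) (hm : ∀ z ∈ Z, Measurable (f z))
    (hB : ∀ z ∈ Z, ∀ g, |f z g| ≤ B) (hd : ∀ z ∈ Z, DependsOn (f z) (T z))
    (hT : ∀ z ∈ Z, ∀ z' ∈ Z, z ≠ z' → Disjoint (T z) (T z')) (h0 : ∀ z ∈ Z, ∫ g, f z g ∂(lw ι μ) = 0)
    {l : ℝ} (hl : |l| * B ≤ 1) :
    ∫ g, Real.exp (l * ∑ z ∈ Z, f z g) ∂(lw ι μ) ≤ Real.exp (#Z * (l * B) ^ 2) := by
  have hlB : ∀ z ∈ Z, ∀ g, |l * f z g| ≤ 1 := fun z hz g => by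
    rw [abs_mul]
    exact (mul_le_mul_of_nonneg_left (hB z hz g) (abs_nonneg _)).trans hl
  have hem : ∀ z ∈ Z, Measurable fun g => Real.exp (l * f z g) := fun z hz =>
    ((hm z hz).const_mul l).exp
  have e1 : ∀ g, Real.exp (l * ∑ z ∈ Z, f z g) = ∏ z ∈ Z, Real.exp (l * f z g) := by
    intro g
    rw [Finset.mul_sum, Real.exp_sum]
  simp only [e1]
  rw [int_prod_indep Z (T := T) hem (fun z hz => fun g g' h => by
    show Real.exp (l * f z g) = Real.exp (l * f z g')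
    rw [hd z hz h]) hT]
  have h1 : ∀ z ∈ Z, ∫ g, Real.exp (l * f z g) ∂(lw ι μ) ≤ Real.exp ((l * B) ^ 2) := by
    intro z hz
    have hB0 : 0 ≤ B := (abs_nonneg _).trans (hB z hz 0)
    have hi : Integrable (f z) (lw ι μ) := bdd_integrable (hm z hz) (hB z hz)
    have h2 : ∀ g, Real.exp (l * f z g) ≤ 1 + l * f z g + (l * B) ^ 2 := by
      intro g
      refine (exp_quad (hlB z hz g)).trans ?_
      have h3 : (l * f z g) ^ 2 ≤ (l * B) ^ 2 := by
        rw [mul_pow, mul_pow]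
        refine mul_le_mul_of_nonneg_left ?_ (sq_nonneg _)
        exact sq_le_sq' (abs_le.1 (hB z hz g)).1 (abs_le.1 (hB z hz g)).2
      linarith
    have h4 : ∫ g, Real.exp (l * f z g) ∂(lw ι μ) ≤ ∫ g, (1 + l * f z g + (l * B) ^ 2) ∂(lw ι μ) := by
      refine integral_mono ?_ ?_ h2
      · exact bdd_integrable (hem z hz) (B := Real.exp 1) fun g => by
          rw [abs_of_pos (Real.exp_pos _)]
          exact Real.exp_le_exp.2 (abs_le.1 (hlB z hz g)).2
      · exact ((integrable_const _).add (hi.const_mul l)).add (integrable_const _)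
    refine h4.trans ?_
    have h6 : ∫ g, (1 + l * f z g + (l * B) ^ 2) ∂(lw ι μ) = 1 + (l * B) ^ 2 := by
      have i1 : Integrable (fun g => 1 + l * f z g) (lw ι μ) := (integrable_const _).add (hi.const_mul l)
      rw [integral_add i1 (integrable_const _), integral_add (integrable_const _) (hi.const_mul l),
        integral_const_mul, h0 z hz]
      simp only [integral_const, probReal_univ, smul_eq_mul, mul_zero, one_mul, add_zero]
    rw [h6]
    have h5 := Real.add_one_le_exp ((l * B) ^ 2)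
    linarith
  refine (Finset.prod_le_prod (fun z _ => integral_nonneg fun g => (Real.exp_pos _).le) h1).trans (le_of_eq ?_)
  rw [prod_const, ← Real.exp_nat_mul]

/-- A function with values in `[0, 1]` against a sum of independent bounded centred functions. -/
theorem int_mul_sum {f : κ → (ι → ℝ) → ℝ} {T : κ → Set ι} {B : ℝ} (Z : Finset κ) (hm : ∀ z ∈ Z, Measurable (f z))
    (hB0 : 0 < B) (hB : ∀ z ∈ Z, ∀ g, |f z g| ≤ B) (hd : ∀ z ∈ Z, DependsOn (f z) (T z))
    (hT : ∀ z ∈ Z, ∀ z' ∈ Z, z ≠ z' → Disjoint (T z) (T z')) (h0 : ∀ z ∈ Z, ∫ g, f z g ∂(lw ι μ) = 0)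
    {H : (ι → ℝ) → ℝ} (hH : Measurable H) (hH0 : ∀ g, 0 ≤ H g) (hH1 : ∀ g, H g ≤ 1) (u : ℝ) :
    ∫ g, H g * ∑ z ∈ Z, f z g ∂(lw ι μ) ≤
      B * Real.sqrt #Z * (u * ∫ g, H g ∂(lw ι μ) + Real.exp (1 - u)) := by
  rcases Z.eq_empty_or_nonempty with hZ | hZ
  · subst hZ
    simp
  have hN : (0 : ℝ) < #Z := by exact_mod_cast hZ.card_pos
  have hs : 0 < Real.sqrt #Z := Real.sqrt_pos.2 hN
  have hs1 : 1 ≤ Real.sqrt #Z := by
    rw [Real.one_le_sqrt]
    exact_mod_cast hZ.card_pos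
  obtain ⟨l, hl⟩ : ∃ l, l = 1 / (B * Real.sqrt #Z) := ⟨_, rfl⟩
  have hl0 : 0 < l := by
    rw [hl]
    positivity
  have hlB : |l| * B ≤ 1 := by
    rw [abs_of_pos hl0, hl, one_div, mul_inv, mul_comm B⁻¹, mul_assoc, inv_mul_cancel₀ hB0.ne', mul_one]
    exact inv_le_one_of_one_le₀ hs1
  have h1 := exp_sum Z hm hB hd hT h0 hlB
  have h2 : (#Z : ℝ) * (l * B) ^ 2 = 1 := by
    rw [hl, one_div, mul_inv, mul_comm B⁻¹, mul_assoc, inv_mul_cancel₀ hB0.ne', mul_one, inv_pow,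
      Real.sq_sqrt hN.le, mul_inv_cancel₀ hN.ne']
  rw [h2] at h1
  have hSm : Measurable fun g => ∑ z ∈ Z, f z g := Finset.measurable_sum _ hm
  have hSB : ∀ g, |∑ z ∈ Z, f z g| ≤ #Z * B := fun g => by
    refine (Finset.abs_sum_le_sum_abs _ _).trans ((Finset.sum_le_card_nsmul _ _ B fun z hz => hB z hz g).trans ?_)
    rw [nsmul_eq_mul]
  have hHi : Integrable H (lw ι μ) := bdd_integrable hH (B := 1) fun g => by
    rw [abs_of_nonneg (hH0 g)]
    exact hH1 g
  have hEi : Integrable (fun g => Real.exp (l * ∑ z ∈ Z, f z g)) (lw ι μ) :=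
    bdd_integrable (hSm.const_mul l).exp (B := Real.exp (l * (#Z * B))) fun g => by
      rw [abs_of_pos (Real.exp_pos _)]
      exact Real.exp_le_exp.2 (mul_le_mul_of_nonneg_left (abs_le.1 (hSB g)).2 hl0.le)
  have hHSi : Integrable (fun g => H g * ∑ z ∈ Z, f z g) (lw ι μ) :=
    bdd_integrable (hH.mul hSm) (B := #Z * B) fun g => by
      rw [abs_mul, abs_of_nonneg (hH0 g)]
      exact (mul_le_of_le_one_left (abs_nonneg _) (hH1 g)).trans (hSB g)
  have h3 : l * ∫ g, H g * ∑ z ∈ Z, f z g ∂(lw ι μ) ≤ u * ∫ g, H g ∂(lw ι μ) + Real.exp (1 - u) := by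
    rw [← integral_const_mul, ← integral_const_mul]
    have h4 : ∫ g, l * (H g * ∑ z ∈ Z, f z g) ∂(lw ι μ) ≤
        ∫ g, (u * H g + Real.exp (-u) * Real.exp (l * ∑ z ∈ Z, f z g)) ∂(lw ι μ) := by
      refine integral_mono (hHSi.const_mul l) ((hHi.const_mul u).add (hEi.const_mul _)) fun g => ?_
      have h5 := young (h := H g) (y := l * ∑ z ∈ Z, f z g) (a := u) (hH0 g) (hH1 g)
      have h6 : Real.exp (l * ∑ z ∈ Z, f z g - u) = Real.exp (-u) * Real.exp (l * ∑ z ∈ Z, f z g) := by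
        rw [← Real.exp_add]
        congr 1
        ring
      show l * (H g * ∑ z ∈ Z, f z g) ≤ u * H g + Real.exp (-u) * Real.exp (l * ∑ z ∈ Z, f z g)
      rw [← h6]
      linarith
    refine h4.trans ?_
    rw [integral_add (hHi.const_mul u) (hEi.const_mul _), integral_const_mul (Real.exp (-u))]
    have h7 : Real.exp (-u) * ∫ g, Real.exp (l * ∑ z ∈ Z, f z g) ∂(lw ι μ) ≤ Real.exp (-u) * Real.exp 1 :=
      mul_le_mul_of_nonneg_left h1 (Real.exp_pos _).le
    rw [← Real.exp_add] at h7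
    have h8 : -u + 1 = 1 - u := by ring
    rw [h8] at h7
    linarith
  have h9 : l * (B * Real.sqrt #Z) = 1 := by
    rw [hl]
    exact one_div_mul_cancel (by positivity)
  calc ∫ g, H g * ∑ z ∈ Z, f z g ∂(lw ι μ) = B * Real.sqrt #Z * (l * ∫ g, H g * ∑ z ∈ Z, f z g ∂(lw ι μ)) := by
        rw [← mul_assoc, mul_comm (B * Real.sqrt #Z) l, h9, one_mul]
    _ ≤ _ := mul_le_mul_of_nonneg_left h3 (by positivity)

/-- The lucky events of the cells. -/
structure Cells (μ : Measure ℝ) (Z : Finset κ) (p : ℝ) (D : κ → Set (ι → ℝ)) (T : κ → Finset ι) : Prop where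
  p0 : 0 < p
  meas : ∀ z ∈ Z, MeasurableSet (D z)
  dep : ∀ z ∈ Z, ∀ g g' : ι → ℝ, (∀ q ∈ T z, g q = g' q) → (g ∈ D z ↔ g' ∈ D z)
  mono : ∀ z ∈ Z, ∀ g g' : ι → ℝ, (∀ q, g q ≤ g' q) → g ∈ D z → g' ∈ D z
  prob : ∀ z ∈ Z, (lw ι μ).real (D z) = p
  disj : ∀ z ∈ Z, ∀ z' ∈ Z, z ≠ z' → Disjoint (T z) (T z')

/-- **Decoupling, abstract form.** -/
theorem dlr {Z : Finset κ} {p : ℝ} {D : κ → Set (ι → ℝ)} {T : κ → Finset ι} (hC : Cells μ Z p D T)
    {H : (ι → ℝ) → ℝ} (hH : Measurable H) (hH0 : ∀ g, 0 ≤ H g) (hH1 : ∀ g, H g ≤ 1)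
    {G : κ → (ι → ℝ) → ℝ} (hG : ∀ z ∈ Z, Measurable (G z)) (hG0 : ∀ z ∈ Z, ∀ g, 0 ≤ G z g)
    (hG1 : ∀ z ∈ Z, ∀ g, G z g ≤ 1) (hGm : ∀ z ∈ Z, MonoOn (T z : Set ι) fun g => - G z g)
    (hGH : ∀ z ∈ Z, ∀ g ∈ D z, H g ≤ G z g) (u : ℝ) :
    ∑ z ∈ Z, ∫ g, (H g - G z g) ∂(lw ι μ) ≤
      (1 / p) * Real.sqrt #Z * (u * ∫ g, H g ∂(lw ι μ) + Real.exp (1 - u)) := by
  rcases Z.eq_empty_or_nonempty with hZ | ⟨z₀, hz₀⟩
  · subst hZ
    simp
  have hp := hC.p0
  have hp1 : p ≤ 1 := by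
    rw [← hC.prob z₀ hz₀]
    exact measureReal_le_one
  have hp1' : 1 ≤ 1 / p := by
    rw [le_div_iff₀ hp, one_mul]
    exact hp1
  have hHi : Integrable H (lw ι μ) := bdd_integrable hH (B := 1) fun g => by
    rw [abs_of_nonneg (hH0 g)]
    exact hH1 g
  have hGi : ∀ z ∈ Z, Integrable (G z) (lw ι μ) := fun z hz => bdd_integrable (hG z hz) (B := 1) fun g => by
    rw [abs_of_nonneg (hG0 z hz g)]
    exact hG1 z hz g
  have hI : ∀ z ∈ Z, Measurable (nI p (D z)) := fun z hz => nI_meas (hC.meas z hz)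
  have hIB : ∀ z g, |nI p (D z) g| ≤ 1 / p := fun z g => by
    rw [abs_of_nonneg (nI_nonneg hp _ _)]
    exact nI_le hp _ _
  have hIi : ∀ z ∈ Z, Integrable (nI p (D z)) (lw ι μ) := fun z hz => bdd_integrable (hI z hz) (hIB z)
  have hI1 : ∀ z ∈ Z, ∫ g, nI p (D z) g ∂(lw ι μ) = 1 := fun z hz => nI_int hp (hC.meas z hz) (hC.prob z hz)
  have hHIi : ∀ z ∈ Z, Integrable (fun g => H g * nI p (D z) g) (lw ι μ) := fun z hz =>
    bdd_integrable (hH.mul (hI z hz)) (B := 1 / p) fun g => by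
      rw [abs_mul, abs_of_nonneg (hH0 g)]
      exact (mul_le_of_le_one_left (abs_nonneg _) (hH1 g)).trans (hIB z g)
  have hGIi : ∀ z ∈ Z, Integrable (fun g => G z g * nI p (D z) g) (lw ι μ) := fun z hz =>
    bdd_integrable ((hG z hz).mul (hI z hz)) (B := 1 / p) fun g => by
      rw [abs_mul, abs_of_nonneg (hG0 z hz g)]
      exact (mul_le_of_le_one_left (abs_nonneg _) (hG1 z hz g)).trans (hIB z g)
  -- one cell
  have hone : ∀ z ∈ Z, ∫ g, (H g - G z g) ∂(lw ι μ) ≤ ∫ g, H g * (1 - nI p (D z) g) ∂(lw ι μ) := by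
    intro z hz
    have h1 : ∫ g, H g * nI p (D z) g ∂(lw ι μ) ≤ ∫ g, G z g * nI p (D z) g ∂(lw ι μ) := by
      refine integral_mono (hHIi z hz) (hGIi z hz) fun g => ?_
      show H g * nI p (D z) g ≤ G z g * nI p (D z) g
      by_cases hg : g ∈ D z
      · exact mul_le_mul_of_nonneg_right (hGH z hz g hg) (nI_nonneg hp _ _)
      · unfold nI
        rw [Set.indicator_of_notMem hg, mul_zero, mul_zero]
    have h2 : (∫ g, - G z g ∂(lw ι μ)) * (∫ g, nI p (D z) g ∂(lw ι μ)) ≤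
        ∫ g, - G z g * nI p (D z) g ∂(lw ι μ) := by
      refine harrisB (T z) (hG z hz).neg (hI z hz) (a := 1) (b := 1 / p) (fun g => ?_) (hIB z) (hGm z hz) ?_ ?_
      · rw [abs_neg, abs_of_nonneg (hG0 z hz g)]
        exact hG1 z hz g
      · exact monoOn_of_monotone (nI_mono hp (hC.mono z hz)) _
      · exact nI_dep (hC.dep z hz)
    have h3 : ∫ g, - G z g * nI p (D z) g ∂(lw ι μ) = - ∫ g, G z g * nI p (D z) g ∂(lw ι μ) := by
      rw [← integral_neg]
      refine integral_congr_ae (Filter.Eventually.of_forall fun g => ?_)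
      show - G z g * nI p (D z) g = - (G z g * nI p (D z) g)
      ring
    rw [hI1 z hz, mul_one, integral_neg, h3] at h2
    have h4 : ∫ g, H g * (1 - nI p (D z) g) ∂(lw ι μ) =
        ∫ g, H g ∂(lw ι μ) - ∫ g, H g * nI p (D z) g ∂(lw ι μ) := by
      rw [← integral_sub hHi (hHIi z hz)]
      refine integral_congr_ae (Filter.Eventually.of_forall fun g => ?_)
      show H g * (1 - nI p (D z) g) = H g - H g * nI p (D z) g
      ring
    rw [h4, integral_sub hHi (hGi z hz)]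
    linarith
  refine (Finset.sum_le_sum hone).trans ?_
  have h5 : ∑ z ∈ Z, ∫ g, H g * (1 - nI p (D z) g) ∂(lw ι μ) =
      ∫ g, H g * ∑ z ∈ Z, (1 - nI p (D z) g) ∂(lw ι μ) := by
    rw [← integral_finsetSum]
    · refine integral_congr_ae (Filter.Eventually.of_forall fun g => ?_)
      show ∑ z ∈ Z, H g * (1 - nI p (D z) g) = H g * ∑ z ∈ Z, (1 - nI p (D z) g)
      rw [Finset.mul_sum]
    · intro z hz
      refine (hHi.sub (hHIi z hz)).congr (Filter.Eventually.of_forall fun g => ?_)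
      show H g - H g * nI p (D z) g = H g * (1 - nI p (D z) g)
      ring
  rw [h5]
  refine int_mul_sum (T := fun z => (T z : Set ι)) Z (fun z hz => measurable_const.sub (hI z hz)) (by positivity)
    (fun z hz g => ?_) (fun z hz g g' h => ?_) (fun z hz z' hz' hne => ?_) (fun z hz => ?_) hH hH0 hH1 u
  · have h6 := nI_nonneg hp (D z) g
    have h7 := nI_le hp (D z) g
    show |1 - nI p (D z) g| ≤ 1 / p
    rw [abs_le]
    constructor <;> linarith
  · show 1 - nI p (D z) g = 1 - nI p (D z) g'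
    rw [nI_dep (T := (T z : Set ι)) (hC.dep z hz) h]
  · exact Finset.disjoint_coe.2 (hC.disj z hz z' hz' hne)
  · show ∫ g, (1 - nI p (D z) g) ∂(lw ι μ) = 0
    rw [integral_sub (integrable_const _) (hIi z hz), hI1 z hz]
    simp

end

end Pool.Agent.W_7d29a1_Z59
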