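import Pool.Agent.W_7d29a1_Z59.TVA
import Pool.Agent.W_7d29a1_Z.KrB

/-!
STORM Z (MP_7d29a1_pr), window version: the paths with a large total variation of the displacements of the layers of length `r`.
(helper59)
-/

namespace Pool.Agent.W_7d29a1_Z59

open MeasureTheory ProbabilityTheory Filter Topology Finset
open Pool.Agent.W_7d29a1_F Pool.Agent.W_7d29a1_G Pool.Agent.W_7d29a1_SR
open Pool.Agent.W_7d29a1_Z

noncomputable section

variable {μ : Measure ℝ} {h : ℝ} {r : ℕ}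

/-- The total variation of the displacements of the `M` layers of length `r` behind the time `t₀`. -/
def tv (r M t₀ : ℕ) (S : Finset ℕ) : ℝ := ∑ k ∈ range M, |((S ∩ Ico (t₀ + k * r) (t₀ + k * r + r)).card : ℝ) - r / 2|

theorem tv_nonneg (M t₀ : ℕ) (S : Finset ℕ) : 0 ≤ tv r M t₀ S := Finset.sum_nonneg fun _ _ => abs_nonneg _

theorem tv_succ (M t₀ : ℕ) (S : Finset ℕ) :
    tv r (M + 1) t₀ S = |((S ∩ Ico t₀ (t₀ + r)).card : ℝ) - r / 2| + tv r M (t₀ + r) S := by
  unfold tv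
  rw [sum_range_succ', add_comm]
  congr 1
  · simp
  · refine Finset.sum_congr rfl fun k _ => ?_
    have e1 : t₀ + (k + 1) * r = t₀ + r + k * r := by ring
    rw [e1]

theorem tv_congr (M t₀ : ℕ) {S S' : Finset ℕ} (hS : S ∩ Ico t₀ (t₀ + M * r) = S' ∩ Ico t₀ (t₀ + M * r)) :
    tv r M t₀ S = tv r M t₀ S' := by
  unfold tv
  refine Finset.sum_congr rfl fun k hk => ?_
  have hk' := Finset.mem_range.1 hk
  have hkM : k * r + r ≤ M * r := by nlinarith
  have e1 : ∀ T : Finset ℕ, T ∩ Ico (t₀ + k * r) (t₀ + k * r + r) =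
      (T ∩ Ico t₀ (t₀ + M * r)) ∩ Ico (t₀ + k * r) (t₀ + k * r + r) := by
    intro T
    ext i
    simp only [mem_inter, mem_Ico]
    constructor
    · rintro ⟨h1, h2⟩
      exact ⟨⟨h1, by omega, by omega⟩, h2⟩
    · rintro ⟨⟨h1, -⟩, h2⟩
      exact ⟨h1, h2⟩
  rw [e1 S, e1 S', hS]

/-- The tilted partition function as a sum over the pieces. -/
theorem Zt_eq (η : Env) : ∀ (M t₀ : ℕ) (x : ℤ), Zt μ h r M η (((t₀ : ℤ), x) : Pt) =
    ∑ S ∈ (Ico t₀ (t₀ + M * r)).powerset, pw μ 0 0 η t₀ x (t₀ + M * r) S * Real.exp (h * tv r M t₀ S)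
  | 0, t₀, x => by
    have e1 : t₀ + 0 * r = t₀ := by ring
    rw [e1, Ico_self, powerset_empty, sum_singleton, pw_self]
    simp [tv, Zt]
  | M + 1, t₀, x => by
    classical
    have e1 : t₀ + (M + 1) * r = t₀ + r + M * r := by ring
    have hz : Zt μ h r (M + 1) η (((t₀ : ℤ), x) : Pt) = ∑ y ∈ Icc (0 : ℤ) r, W μ 0 η (((t₀ : ℤ), x) : Pt) r y *
      (Real.exp (h * |(y : ℝ) - r / 2|) * Zt μ h r M η (((t₀ : ℤ), x) + ((r : ℤ), y))) := rfl
    rw [hz, e1, sum_pw_cut 0 η x (Nat.le_add_right t₀ r) (Nat.le_add_right (t₀ + r) (M * r))]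
    have h0 : ∀ S : Finset ℕ, S ⊆ Ico t₀ (t₀ + r) → ps 0 t₀ x S (t₀ + r) = x + (S.card : ℤ) := fun S hS => by
      unfold ps
      rw [inter_eq_left.2 hS]
      simp
    have h1 : ∀ y ∈ Icc (0 : ℤ) r, W μ 0 η (((t₀ : ℤ), x) : Pt) r y *
        (Real.exp (h * |(y : ℝ) - r / 2|) * Zt μ h r M η (((t₀ : ℤ), x) + ((r : ℤ), y))) =
        ∑ S ∈ (Ico t₀ (t₀ + r)).powerset, if ((S.card : ℕ) : ℤ) = y then pw μ 0 0 η t₀ x (t₀ + r) S *
          (Real.exp (h * |(S.card : ℝ) - r / 2|) * Zt μ h r M η ((((t₀ + r : ℕ) : ℤ), x + S.card) : Pt)) else 0 := by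
      intro y _
      rw [W_eq_Kf]
      unfold Kf pcs
      rw [sum_mul, sum_filter]
      refine Finset.sum_congr rfl fun S hS => ?_
      rw [mem_powerset] at hS
      rw [h0 S hS]
      by_cases hc : ((S.card : ℕ) : ℤ) = y
      · rw [if_pos hc, if_pos (by rw [hc])]
        have e2 : (y : ℝ) = (S.card : ℝ) := by
          rw [← hc]
          norm_cast
        have e3 : (((t₀ : ℤ), x) : Pt) + ((r : ℤ), y) = ((((t₀ + r : ℕ) : ℤ), x + S.card) : Pt) := by
          rw [← hc]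
          exact Prod.ext (by push_cast; rfl) rfl
        rw [e2, e3]
      · rw [if_neg hc, if_neg]
        intro h2
        exact hc (by linarith)
    rw [Finset.sum_congr rfl h1, Finset.sum_comm]
    refine Finset.sum_congr rfl fun S hS => ?_
    rw [mem_powerset] at hS
    have hcard : S.card ≤ r := by
      have := Finset.card_le_card hS
      rwa [Nat.card_Ico, Nat.add_sub_cancel_left] at this
    rw [Finset.sum_ite_eq, if_pos (Finset.mem_Icc.2 ⟨by positivity, by exact_mod_cast hcard⟩)]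
    congr 1
    rw [Zt_eq η M (t₀ + r) (x + S.card), h0 S hS, mul_sum]
    refine Finset.sum_congr rfl fun S' hS' => ?_
    rw [mem_powerset] at hS'
    have e4 : tv r (M + 1) t₀ (S ∪ S') = |(S.card : ℝ) - r / 2| + tv r M (t₀ + r) S' := by
      rw [tv_succ]
      congr 1
      · have : (S ∪ S') ∩ Ico t₀ (t₀ + r) = S := by
          rw [union_inter_left hS hS']
        rw [this]
      · refine tv_congr M (t₀ + r) ?_
        rw [union_inter_right hS hS', inter_eq_left.2 hS']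
    rw [e4, mul_add, Real.exp_add]
    ring

/-- The kernel of the paths with a large total variation. -/
theorem Kc_tv_le (hh : 0 ≤ h) (η : Env) (M t₀ : ℕ) (x y : ℤ) (V : ℝ) (C : Finset ℕ → Prop)
    (hC : ∀ S, C S → V ≤ tv r M t₀ S) :
    Kc μ 0 0 C η t₀ x (t₀ + M * r) y ≤ Real.exp (-(h * V)) * Zt μ h r M η (((t₀ : ℤ), x) : Pt) := by
  classical
  rw [Zt_eq, mul_sum]
  unfold Kc pcs
  have h1 : ∀ S ∈ (((Ico t₀ (t₀ + M * r)).powerset.filter fun S => ps 0 t₀ x S (t₀ + M * r) = y).filter C),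
      pw μ 0 0 η t₀ x (t₀ + M * r) S ≤
        Real.exp (-(h * V)) * (pw μ 0 0 η t₀ x (t₀ + M * r) S * Real.exp (h * tv r M t₀ S)) := by
    intro S hS
    have h2 := hC S (Finset.mem_filter.1 hS).2
    have h3 : 1 ≤ Real.exp (-(h * V)) * Real.exp (h * tv r M t₀ S) := by
      rw [← Real.exp_add]
      refine Real.one_le_exp ?_
      have := mul_le_mul_of_nonneg_left h2 hh
      linarith
    have h4 := mul_le_mul_of_nonneg_left h3 (pw_nonneg (μ := μ) (s := 0) 0 η t₀ x (t₀ + M * r) S)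
    linarith
  refine (Finset.sum_le_sum h1).trans ?_
  refine Finset.sum_le_sum_of_subset_of_nonneg ((filter_subset _ _).trans (filter_subset _ _)) fun S _ _ => ?_
  exact mul_nonneg (Real.exp_nonneg _) (mul_nonneg (pw_nonneg _ _ _ _ _ _) (Real.exp_nonneg _))

/-- **The total variation**: outside an event of probability at most `exp (-M)` per starting point, the tilted partition function is at most
`exp (K M EE r)`. -/
theorem tv_prob [IsProbabilityMeasure μ] {c C : ℝ} {n₀ : ℕ} (hI : In μ c C n₀) : ∃ K κ : ℝ, 1 ≤ K ∧ 0 < κ ∧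
    ∃ n₁ : ℕ, 1 ≤ n₁ ∧ ∀ r, n₁ ≤ r → 4 ≤ wd μ r ∧ ∀ (M : ℕ) (a : Pt),
      (law μ).real {η | Real.exp (K * M * EE μ r) < Zt μ (κ * EE μ r / wd μ r) r M η a} ≤ Real.exp (-(M : ℝ)) := by
  obtain ⟨K, κ, hK, hκ, n₁, hn₁, hM⟩ := tv_mom hI
  have hC1 := hI.C1
  have hl : 0 ≤ Real.log K := Real.log_nonneg hK
  refine ⟨C * (Real.log K + 1), κ, by nlinarith, hκ, n₁, hn₁, fun r hr => ?_⟩
  obtain ⟨hw4, hM'⟩ := hM r hr
  refine ⟨hw4, fun M a => ?_⟩
  have hE1 : 1 ≤ EE μ r := one_le_EE r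
  obtain ⟨h, hh⟩ : ∃ h : ℝ, h = κ * EE μ r / wd μ r := ⟨_, rfl⟩
  have hm := hM' M a
  rw [← hh] at hm ⊢
  obtain ⟨θ, hθ⟩ : ∃ θ : ℝ, θ = 1 / (C * EE μ r) := ⟨_, rfl⟩
  have hθ0 : 0 < θ := by rw [hθ]; positivity
  have hθ1 : θ ≤ 1 := by
    rw [hθ, div_le_one (by positivity)]
    nlinarith
  rw [← hθ] at hm
  have hint : Integrable (fun η => Real.exp (θ * Real.log (Zt μ h r M η a))) (law μ) := by
    have h2 := (Zt_dom (μ := μ) (h := h) (r := r) M a).rpow_int hI.em hθ0.le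
    refine h2.congr (Eventually.of_forall fun η => ?_)
    show Zt μ h r M η a ^ θ = Real.exp (θ * Real.log (Zt μ h r M η a))
    rw [Real.rpow_def_of_pos (Zt_pos M η a), mul_comm]
  have h1 := mul_meas_ge_le_integral_of_nonneg (μ := law μ) (Eventually.of_forall fun η => Real.exp_nonneg _) hint
    (Real.exp (θ * (C * (Real.log K + 1) * M * EE μ r)))
  have e1 : θ * (C * (Real.log K + 1) * M * EE μ r) = (Real.log K + 1) * M := by
    rw [hθ]
    field_simp
  rw [e1] at h1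
  have h2 : (law μ).real {η | Real.exp (C * (Real.log K + 1) * M * EE μ r) < Zt μ h r M η a} ≤
      (law μ).real {η | Real.exp ((Real.log K + 1) * M) ≤ Real.exp (θ * Real.log (Zt μ h r M η a))} := by
    refine measureReal_mono fun η hη => ?_
    have hη' : Real.exp (C * (Real.log K + 1) * M * EE μ r) < Zt μ h r M η a := hη
    refine Real.exp_le_exp.2 ?_
    rw [← e1]
    refine mul_le_mul_of_nonneg_left ?_ hθ0.le
    rw [← Real.log_exp (C * (Real.log K + 1) * M * EE μ r)]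
    exact Real.log_le_log (Real.exp_pos _) hη'.le
  refine h2.trans ?_
  have h3 : Real.exp ((Real.log K + 1) * M) *
      (law μ).real {η | Real.exp ((Real.log K + 1) * M) ≤ Real.exp (θ * Real.log (Zt μ h r M η a))} ≤ K ^ M := h1.trans hm
  have h4 : K ^ M = Real.exp (Real.log K * M) := by
    rw [mul_comm, Real.exp_nat_mul, Real.exp_log (by linarith)]
  rw [h4] at h3
  have h5 : Real.exp (Real.log K * M) = Real.exp ((Real.log K + 1) * M) * Real.exp (-(M : ℝ)) := by
    rw [← Real.exp_add]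
    congr 1
    ring
  rw [h5] at h3
  exact le_of_mul_le_mul_left h3 (Real.exp_pos _)

end

end Pool.Agent.W_7d29a1_Z59
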