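import Pool.Agent.W_7d29a1_Z59.TVB
import Pool.Agent.W_7d29a1_Z17.Swap17
import Pool.Agent.W_7d29a1_Z.PthB
import Pool.Agent.W_7d29a1_Z.NS

/-!
STORM Z (MP_7d29a1_pr), second storey: the total variation of the displacements of the layers of the ordinary path is of the order of the
width times the number of the layers, outside an event of probability `exp (- L ^ c)`. (helper59)
-/

namespace Pool.Agent.W_7d29a1_Z59

open MeasureTheory ProbabilityTheory Filter Topology Finset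
open Pool.Agent.W_7d29a1_F Pool.Agent.W_7d29a1_X Pool.Agent.W_7d29a1_G Pool.Agent.W_7d29a1_Z
open Pool.Agent.W_7d29a1_SR (In wd)
open scoped ENNReal

noncomputable section

variable {μ : Measure ℝ}

open scoped Classical in
/-- Gibbs probability of a class of middle pieces. -/
theorem gibbs_mid (η : Env) {N : ℕ} {y : ℤ} {a b : ℕ} (hab : a ≤ b) (hbN : b ≤ N) (C : ℤ → Finset ℕ → Prop) {θ : ℝ} (hθ : 0 < θ)
    (hC : ∀ u v : ℤ, |u| ≤ N → Kc μ 0 0 (C u) η a u b v ≤ θ * Kf μ 0 0 η a u b v) :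
    ∑ S ∈ (range N).powerset, (if C (pos S a) (S ∩ Ico a b) then gp μ η N y S else 0) ≤ θ := by
  obtain ⟨Z, hZ⟩ : ∃ Z, Z = Kf μ 0 0 η 0 0 N y := ⟨_, rfl⟩
  have hZ0 : 0 ≤ Z := by rw [hZ]; exact Kf_nonneg _ _ _ _ _ _
  have h1 := Pool.Agent.W_7d29a1_Z17.swap_mid (μ := μ) (s := 0) η (y := y) hab hbN C (fun u _ => if |u| ≤ N then θ⁻¹ else 0)
    (fun u v => by
      show (if |u| ≤ (N : ℤ) then θ⁻¹ else 0) * Kc μ 0 0 (C u) η a u b v ≤ _
      by_cases hu : |u| ≤ (N : ℤ)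
      · rw [if_pos hu]
        have h2 := mul_le_mul_of_nonneg_left (hC u v hu) (inv_nonneg.2 hθ.le)
        rwa [← mul_assoc, inv_mul_cancel₀ hθ.ne', one_mul] at h2
      · rw [if_neg hu, zero_mul]
        exact Kf_nonneg _ _ _ _ _ _)
  rw [← hZ] at h1
  have hpos : ∀ S ∈ (range N).powerset, |pos S a| ≤ N := by
    intro S _
    unfold pos
    have h2 : (S ∩ range a).card ≤ a := by
      have := Finset.card_le_card (inter_subset_right : S ∩ range a ⊆ range a)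
      rwa [card_range] at this
    rw [abs_of_nonneg (by positivity)]
    have h3 : (S ∩ range a).card ≤ N := h2.trans (hab.trans hbN)
    exact_mod_cast h3
  have h2 : ∑ S ∈ (range N).powerset, (if C (pos S a) (S ∩ Ico a b) then gp μ η N y S else 0) =
      θ * ((∑ S ∈ (range N).powerset, (if pos S N = y ∧ C (pos S a) (S ∩ Ico a b) then
        pth μ 0 η N S * (if |pos S a| ≤ (N : ℤ) then θ⁻¹ else 0) else 0)) / Z) := by
    rw [sum_div, mul_sum]
    refine sum_congr rfl fun S hS => ?_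
    rw [gp_eq, ← hZ, pw_pth, if_pos (hpos S hS)]
    by_cases h3 : C (pos S a) (S ∩ Ico a b)
    · by_cases h4 : pos S N = y
      · rw [if_pos h3, if_pos h4, if_pos ⟨h4, h3⟩]
        field_simp
      · rw [if_pos h3, if_neg h4, if_neg fun h => h4 h.1, zero_div, mul_zero]
    · rw [if_neg h3, if_neg fun h => h3 h.2, zero_div, mul_zero]
  rw [h2]
  have h5 : (∑ S ∈ (range N).powerset, (if pos S N = y ∧ C (pos S a) (S ∩ Ico a b) then
        pth μ 0 η N S * (if |pos S a| ≤ (N : ℤ) then θ⁻¹ else 0) else 0)) / Z ≤ 1 :=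
    (div_le_div_of_nonneg_right h1 hZ0).trans (div_self_le_one Z)
  calc θ * _ ≤ θ * 1 := mul_le_mul_of_nonneg_left h5 hθ.le
    _ = θ := mul_one θ

/-- Polynomial factors are absorbed. -/
theorem absorb (C : ℝ) (k : ℕ) {a : ℝ} (ha : 0 < a) : ∀ᶠ L : ℕ in atTop, C * (L : ℝ) ^ k * Real.exp (-(L : ℝ) ^ a) ≤
    Real.exp (-(L : ℝ) ^ (a / 2)) := by
  have h1 : Tendsto (fun L : ℕ => (L : ℝ) ^ (a / 2)) atTop atTop := (tendsto_rpow_atTop (by positivity)).comp tendsto_natCast_atTop_atTop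
  obtain ⟨m, hm⟩ := exists_nat_ge ((k : ℝ) / (a / 2))
  have h2 := (Real.tendsto_pow_mul_exp_neg_atTop_nhds_zero m).comp h1
  have h3 : ∀ᶠ L : ℕ in atTop, |C| * (((L : ℝ) ^ (a / 2)) ^ m * Real.exp (-(L : ℝ) ^ (a / 2))) ≤ 1 := by
    have h4 := h2.const_mul |C|
    rw [mul_zero] at h4
    exact (h4.eventually_le_const one_pos)
  filter_upwards [h3, h1.eventually_ge_atTop 2, eventually_ge_atTop 1] with L h5 h6 h7
  have hL : (1 : ℝ) ≤ L := by exact_mod_cast h7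
  have hL0 : (0 : ℝ) < L := by linarith
  have e1 : (L : ℝ) ^ a = (L : ℝ) ^ (a / 2) * (L : ℝ) ^ (a / 2) := by
    rw [← Real.rpow_add hL0]
    congr 1
    ring
  have e2 : (L : ℝ) ^ k ≤ ((L : ℝ) ^ (a / 2)) ^ m := by
    rw [← Real.rpow_natCast, ← Real.rpow_natCast, ← Real.rpow_mul hL0.le]
    refine Real.rpow_le_rpow_of_exponent_le hL ?_
    rw [div_le_iff₀ (by positivity)] at hm
    linarith
  have e3 : Real.exp (-(L : ℝ) ^ a) ≤ Real.exp (-(L : ℝ) ^ (a / 2)) * Real.exp (-(L : ℝ) ^ (a / 2)) := by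
    rw [← Real.exp_add, e1]
    refine Real.exp_le_exp.2 ?_
    nlinarith
  have hk : 0 ≤ (L : ℝ) ^ k := by positivity
  calc C * (L : ℝ) ^ k * Real.exp (-(L : ℝ) ^ a) ≤ |C| * (L : ℝ) ^ k * Real.exp (-(L : ℝ) ^ a) :=
        mul_le_mul_of_nonneg_right (mul_le_mul_of_nonneg_right (le_abs_self C) hk) (Real.exp_nonneg _)
    _ ≤ |C| * ((L : ℝ) ^ (a / 2)) ^ m * (Real.exp (-(L : ℝ) ^ (a / 2)) * Real.exp (-(L : ℝ) ^ (a / 2))) :=
        mul_le_mul (mul_le_mul_of_nonneg_left e2 (abs_nonneg C)) e3 (Real.exp_nonneg _) (by positivity)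
    _ = |C| * (((L : ℝ) ^ (a / 2)) ^ m * Real.exp (-(L : ℝ) ^ (a / 2))) * Real.exp (-(L : ℝ) ^ (a / 2)) := by ring
    _ ≤ 1 * Real.exp (-(L : ℝ) ^ (a / 2)) := mul_le_mul_of_nonneg_right h5 (Real.exp_nonneg _)
    _ = _ := one_mul _

/-- The good environments for one interval of `M` layers of length `r`. -/
def Gd (μ : Measure ℝ) (L r T₀ M : ℕ) (h u₀ w' e₁ : ℝ) (η : Env) : Prop :=
  (∀ u ∈ Icc (-(L : ℤ)) L, Zt μ h r M η (((T₀ : ℤ), u) : Pt) ≤ Real.exp u₀) ∧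
  ∀ u ∈ Icc (-(L : ℤ)) L, ∀ v ∈ Icc (0 : ℤ) ((M * r : ℕ) : ℤ), |2 * (v : ℝ) - ((M * r : ℕ) : ℝ)| ≤ 2 * w' →
    Real.exp (-e₁) ≤ W μ 0 η (((T₀ : ℤ), u) : Pt) (M * r) v

theorem Gd_meas [IsProbabilityMeasure μ] (L r T₀ M : ℕ) (h u₀ w' e₁ : ℝ) : MeasurableSet {η : Env | Gd μ L r T₀ M h u₀ w' e₁ η} := by
  have e1 : {η : Env | Gd μ L r T₀ M h u₀ w' e₁ η} =
      (⋂ u ∈ Icc (-(L : ℤ)) L, {η : Env | Zt μ h r M η (((T₀ : ℤ), u) : Pt) ≤ Real.exp u₀}) ∩
      ⋂ u ∈ Icc (-(L : ℤ)) L, ⋂ v ∈ Icc (0 : ℤ) ((M * r : ℕ) : ℤ), ⋂ (_ : |2 * (v : ℝ) - ((M * r : ℕ) : ℝ)| ≤ 2 * w'),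
        {η : Env | Real.exp (-e₁) ≤ W μ 0 η (((T₀ : ℤ), u) : Pt) (M * r) v} := by
    ext η
    simp only [Gd, Set.mem_ofPred_eq, Set.mem_inter_iff, Set.mem_iInter]
  rw [e1]
  refine MeasurableSet.inter (Finset.measurableSet_biInter _ fun u _ => measurableSet_le (Zt_dom _ _).meas measurable_const)
    (Finset.measurableSet_biInter _ fun u _ => Finset.measurableSet_biInter _ fun v _ => MeasurableSet.iInter fun _ =>
      measurableSet_le measurable_const (measurable_W _ _ _))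

/-- The condition on the path at one interval. -/
def Ap (r T₀ M : ℕ) (w' V : ℝ) (S : Finset ℕ) : Prop :=
  |2 * ((pos S (T₀ + M * r) - pos S T₀ : ℤ) : ℝ) - ((M * r : ℕ) : ℝ)| ≤ 2 * w' ∧ V < tv r M T₀ S

theorem pos_sub (S : Finset ℕ) {a b : ℕ} (hab : a ≤ b) : pos S b - pos S a = ((S ∩ Ico a b).card : ℤ) := by
  have h1 := ps_chain 0 0 S (Nat.zero_le a) hab
  rw [ps_pos, ps_pos] at h1
  rw [← h1]
  unfold ps
  simp

theorem Kc_zero {C : Finset ℕ → Prop} (η : Env) {a b : ℕ} {u v : ℤ} (h : ∀ S ∈ pcs 0 a u b v, ¬ C S) :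
    Kc μ 0 0 C η a u b v = 0 := by
  classical
  unfold Kc
  refine Finset.sum_eq_zero fun S hS => ?_
  rw [Finset.mem_filter] at hS
  exact absurd hS.2 (h S hS.1)

open scoped Classical in
theorem quenched_tv {h : ℝ} (hh : 0 ≤ h) {L r T₀ M N : ℕ} (hN : T₀ + M * r ≤ N) (hNL : N ≤ L) {y : ℤ} {u₀ w' e₁ V : ℝ} {η : Env}
    (hG : Gd μ L r T₀ M h u₀ w' e₁ η) :
    ∑ S ∈ (range N).powerset, (if Ap r T₀ M w' V S then gp μ η N y S else 0) ≤ Real.exp (-(h * V) + u₀ + e₁) := by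
  have hab : T₀ ≤ T₀ + M * r := Nat.le_add_right _ _
  have h1 := gibbs_mid (μ := μ) η (y := y) hab hN
    (fun _ S' => |2 * ((S'.card : ℤ) : ℝ) - ((M * r : ℕ) : ℝ)| ≤ 2 * w' ∧ V < tv r M T₀ S') (Real.exp_pos (-(h * V) + u₀ + e₁)) (by
      intro u v hu
      have hu' : u ∈ Icc (-(L : ℤ)) L := by
        rw [Finset.mem_Icc]
        have := abs_le.1 hu
        have h2 : (N : ℤ) ≤ L := by exact_mod_cast hNL
        omega
      by_cases hv : 0 ≤ v - u ∧ v - u ≤ ((M * r : ℕ) : ℤ) ∧ |2 * ((v - u : ℤ) : ℝ) - ((M * r : ℕ) : ℝ)| ≤ 2 * w'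
      · have h2 := Kc_tv_le (μ := μ) hh η M T₀ u v V
          (fun S' => |2 * ((S'.card : ℤ) : ℝ) - ((M * r : ℕ) : ℝ)| ≤ 2 * w' ∧ V < tv r M T₀ S') fun S' hS' => hS'.2.le
        have h3 := hG.1 u hu'
        have h4 := hG.2 u hu' (v - u) (Finset.mem_Icc.2 ⟨hv.1, hv.2.1⟩) hv.2.2
        have h5 := W_eq_Kf (μ := μ) (s := 0) η T₀ u (M * r) (v - u)
        rw [add_sub_cancel] at h5
        rw [← h5]
        refine h2.trans ?_
        have h6 := mul_le_mul_of_nonneg_left h3 (Real.exp_nonneg (-(h * V)))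
        refine h6.trans ?_
        have h7 := mul_le_mul_of_nonneg_left h4 (Real.exp_nonneg (-(h * V) + u₀ + e₁))
        refine le_trans (le_of_eq ?_) h7
        rw [← Real.exp_add, ← Real.exp_add]
        congr 1
        ring
      · have h2 : Kc μ 0 0 (fun S' => |2 * ((S'.card : ℤ) : ℝ) - ((M * r : ℕ) : ℝ)| ≤ 2 * w' ∧ V < tv r M T₀ S') η T₀ u
            (T₀ + M * r) v = 0 := by
          refine Kc_zero η fun S' hS1 hC => ?_
          have h5 := hC.1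
          obtain ⟨h3, h4⟩ := mem_pcs.1 hS1
          have h6 : v - u = (S'.card : ℤ) := by
            rw [← h4]
            unfold ps
            rw [inter_eq_left.2 h3]
            simp
          refine hv ⟨by rw [h6]; positivity, ?_, by rw [h6]; exact h5⟩
          rw [h6]
          have := Finset.card_le_card h3
          rw [Nat.card_Ico, Nat.add_sub_cancel_left] at this
          exact_mod_cast this
        rw [h2]
        exact mul_nonneg (Real.exp_nonneg _) (Kf_nonneg _ _ _ _ _ _))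
  refine le_trans (le_of_eq ?_) h1
  refine Finset.sum_congr rfl fun S _ => ?_
  have e1 : Ap r T₀ M w' V S ↔ (|2 * (((S ∩ Ico T₀ (T₀ + M * r)).card : ℤ) : ℝ) - ((M * r : ℕ) : ℝ)| ≤ 2 * w' ∧
      V < tv r M T₀ (S ∩ Ico T₀ (T₀ + M * r))) := by
    unfold Ap
    rw [pos_sub S hab, tv_congr (r := r) M T₀ (S := S ∩ Ico T₀ (T₀ + M * r)) (S' := S) (by rw [inter_assoc, inter_self])]
  by_cases h2 : Ap r T₀ M w' V S
  · rw [if_pos h2, if_pos (e1.1 h2)]
  · rw [if_neg h2, if_neg fun h3 => h2 (e1.2 h3)]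

/-- The annealed probability for one interval. -/
theorem P1_Ap [IsProbabilityMeasure μ] {h : ℝ} (hh : 0 ≤ h) {L r T₀ M N : ℕ} (hN : T₀ + M * r ≤ N) (hNL : N ≤ L) {y : ℤ}
    (hy0 : 0 ≤ y) (hy1 : y ≤ N) (u₀ w' e₁ V : ℝ) :
    P1 μ N y (fun _ S => Ap r T₀ M w' V S) ≤ ENNReal.ofReal (Real.exp (-(h * V) + u₀ + e₁)) +
      law μ {η | ¬ Gd μ L r T₀ M h u₀ w' e₁ η} := by
  classical
  refine (P1_le_of_env (μ := μ) hy0 hy1 (A := fun _ S => Ap r T₀ M w' V S)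
    (B := fun η S => Gd μ L r T₀ M h u₀ w' e₁ η ∧ Ap r T₀ M w' V S) (fun η => ¬ Gd μ L r T₀ M h u₀ w' e₁ η)
    fun η S _ _ h1 h2 => ⟨not_not.1 h2, h1⟩).trans ?_
  refine add_le_add (P1_quenched (μ := μ) ?_ (Real.exp_nonneg _) fun η => ?_) le_rfl
  · intro S
    by_cases hA : Ap r T₀ M w' V S
    · simp only [hA, and_true]
      exact Gd_meas _ _ _ _ _ _ _ _
    · simp only [hA, and_false, Set.ofPred_false]
      exact MeasurableSet.empty
  · by_cases hG : Gd μ L r T₀ M h u₀ w' e₁ η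
    · refine le_trans (le_of_eq ?_) (quenched_tv (μ := μ) hh hN hNL (y := y) (V := V) hG)
      refine Finset.sum_congr rfl fun S _ => ?_
      by_cases hA : Ap r T₀ M w' V S
      · rw [if_pos ⟨hG, hA⟩, if_pos hA]
      · rw [if_neg fun h3 => hA h3.2, if_neg hA]
    · refine le_trans (le_of_eq ?_) (Real.exp_nonneg _)
      refine Finset.sum_eq_zero fun S _ => ?_
      rw [if_neg fun h3 => hG h3.1]

/-- **(TV) The ordinary path has a bounded total variation per layer.** `HF2` is only used for the lower bounds of the kernels. -/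
theorem tvc [IsProbabilityMeasure μ] {c C : ℝ} {n₀ : ℕ} (hI : In μ c C n₀) (hF : HF2 μ) : ∃ Ct : ℝ, 0 < Ct ∧ ∃ n₁ : ℕ, 1 ≤ n₁ ∧
    ∀ ε : ℝ, 0 < ε → ∃ ε' c' : ℝ, 0 < ε' ∧ 0 < c' ∧ ∃ L₀ : ℕ, ∀ L : ℕ, L₀ ≤ L → ∀ N : ℕ, N ≤ L → ∀ y : ℤ, 0 ≤ y → y ≤ N →
      P1 μ N y (fun _ S => NSp μ L N ε' S ∧ ∃ r T₀ M : ℕ, n₁ ≤ r ∧ (L : ℝ) ^ ε ≤ M ∧ T₀ + M * r ≤ N ∧
        Ct * wd μ r * M < tv r M T₀ S) ≤ ENNReal.ofReal (Real.exp (-(L : ℝ) ^ c')) := by
  obtain ⟨K, κ, hK, hκ, n₁, hn₁, htv⟩ := tv_prob hI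
  obtain ⟨a₂, K₂, ha₂, ha₂1, hK₂, hE⟩ := EE'_pow hI
  refine ⟨(K + 2) / κ, by positivity, n₁, hn₁, fun ε hε => ?_⟩
  obtain ⟨δ, c₁, hδ, hc₁, L₁, hpb⟩ := pbox hI hF (ε / 4) (by positivity)
  have hmin : 0 < min ε c₁ := lt_min hε hc₁
  refine ⟨δ, min ε c₁ / 2, hδ, by positivity, ?_⟩
  have hev1 := absorb 48 4 (a := min ε c₁) hmin
  have hlim : Tendsto (fun L : ℕ => (L : ℝ) ^ (ε / 4)) atTop atTop :=
    (tendsto_rpow_atTop (by positivity)).comp tendsto_natCast_atTop_atTop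
  obtain ⟨L₀, hL₀⟩ := eventually_atTop.1 (hev1.and ((hlim.eventually_ge_atTop K₂).and (eventually_ge_atTop (max L₁ 1))))
  refine ⟨L₀, fun L hL N hNL y hy0 hy1 => ?_⟩
  obtain ⟨hab, hK2L, hL1⟩ := hL₀ L hL
  have hLL : L₁ ≤ L := (le_max_left _ _).trans hL1
  have hLone : 1 ≤ L := (le_max_right _ _).trans hL1
  have hLR : (1 : ℝ) ≤ L := by exact_mod_cast hLone
  have hL0 : (0 : ℝ) < L := by linarith
  -- the list of the intervals
  obtain ⟨T, hT⟩ : ∃ T : Finset (ℕ × ℕ × ℕ), T = (((range (L + 1)) ×ˢ ((range (L + 1)) ×ˢ (range (L + 1)))).filter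
    fun p => n₁ ≤ p.1 ∧ (L : ℝ) ^ ε ≤ p.2.2 ∧ p.2.1 + p.2.2 * p.1 ≤ N) := by
    classical
    exact ⟨_, rfl⟩
  have hstep1 : P1 μ N y (fun _ S => NSp μ L N δ S ∧ ∃ r T₀ M : ℕ, n₁ ≤ r ∧ (L : ℝ) ^ ε ≤ M ∧ T₀ + M * r ≤ N ∧
        (K + 2) / κ * wd μ r * M < tv r M T₀ S) ≤
      P1 μ N y (fun _ S => ∃ p ∈ T, Ap p.1 p.2.1 p.2.2 ((L : ℝ) ^ δ * wd' μ (p.2.2 * p.1)) ((K + 2) / κ * wd μ p.1 * p.2.2) S) := by
    refine P1_mono ?_
    rintro η S _ ⟨hns, r, T₀, M, h1, h2, h3, h4⟩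
    have hM0 : 0 < M := by
      have : (0 : ℝ) < M := lt_of_lt_of_le (Real.rpow_pos_of_pos hL0 _) h2
      exact_mod_cast this
    have hr0 : 0 < r := hn₁.trans h1
    have hMr : 1 ≤ M * r := Nat.mul_pos hM0 hr0
    refine ⟨(r, T₀, M), ?_, ?_, h4⟩
    · rw [hT, Finset.mem_filter, Finset.mem_product, Finset.mem_product, Finset.mem_range, Finset.mem_range, Finset.mem_range]
      have h5 : M ≤ M * r := Nat.le_mul_of_pos_right M hr0
      have h6 : r ≤ M * r := Nat.le_mul_of_pos_left r hM0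
      refine ⟨⟨by dsimp only; omega, by dsimp only; omega, by dsimp only; omega⟩, h1, h2, h3⟩
    · have := hns T₀ (M * r) hMr h3
      exact this
  refine hstep1.trans ((P1_exists T _).trans ?_)
  have hone : ∀ p ∈ T, P1 μ N y (fun _ S => Ap p.1 p.2.1 p.2.2 ((L : ℝ) ^ δ * wd' μ (p.2.2 * p.1))
      ((K + 2) / κ * wd μ p.1 * p.2.2) S) ≤ ENNReal.ofReal (6 * L * Real.exp (-(L : ℝ) ^ (min ε c₁))) := by
    rintro ⟨r, T₀, M⟩ hp
    rw [hT, Finset.mem_filter] at hp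
    obtain ⟨-, h1, h2, h3⟩ := hp
    dsimp only at h1 h2 h3 ⊢
    have hM0 : (0 : ℝ) < M := lt_of_lt_of_le (Real.rpow_pos_of_pos hL0 _) h2
    have hM0' : 0 < M := by exact_mod_cast hM0
    have hr0 : 0 < r := hn₁.trans h1
    have hr0R : (0 : ℝ) < r := by exact_mod_cast hr0
    have hE1 : 1 ≤ EE μ r := one_le_EE r
    obtain ⟨hw4, hprob⟩ := htv r h1
    have hw0 : 0 < wd μ r := by linarith
    have hh : 0 ≤ κ * EE μ r / wd μ r := by positivity
    have hmain := P1_Ap (μ := μ) hh (L := L) (r := r) (T₀ := T₀) (M := M) h3 hNL hy0 hy1 (K * M * EE μ r)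
      ((L : ℝ) ^ δ * wd' μ (M * r)) ((L : ℝ) ^ (ε / 4) * EE' μ (M * r)) ((K + 2) / κ * wd μ r * M)
    refine hmain.trans ?_
    -- the exponent
    have hEE : EE' μ (M * r) ≤ K₂ * Real.sqrt M * EE μ r := by
      have h4 := (hE r (M * r) hr0 (Nat.le_mul_of_pos_left r hM0')).2.2
      have e1 : (((M * r : ℕ) : ℝ)) / r = M := by
        push_cast
        field_simp
      rw [e1] at h4
      have e2 : EE' μ r = EE μ r := max_eq_right hE1
      rwa [e2] at h4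
    have hsq : (L : ℝ) ^ (ε / 4) * K₂ ≤ Real.sqrt M := by
      have h5 : (L : ℝ) ^ (ε / 4) * K₂ ≤ (L : ℝ) ^ (ε / 2) := by
        have e3 : (L : ℝ) ^ (ε / 2) = (L : ℝ) ^ (ε / 4) * (L : ℝ) ^ (ε / 4) := by
          rw [← Real.rpow_add hL0]
          congr 1
          ring
        rw [e3]
        exact mul_le_mul_of_nonneg_left hK2L (by positivity)
      refine h5.trans ?_
      refine Real.le_sqrt_of_sq_le ?_
      have e4 : ((L : ℝ) ^ (ε / 2)) ^ 2 = (L : ℝ) ^ ε := by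
        rw [← Real.rpow_natCast, ← Real.rpow_mul hL0.le]
        congr 1
        push_cast
        ring
      rw [e4]
      exact h2
    have hMs : Real.sqrt M * Real.sqrt M = M := Real.mul_self_sqrt hM0.le
    have hexp : -(κ * EE μ r / wd μ r * ((K + 2) / κ * wd μ r * M)) + K * M * EE μ r + (L : ℝ) ^ (ε / 4) * EE' μ (M * r) ≤
        -(L : ℝ) ^ ε := by
      have e5 : κ * EE μ r / wd μ r * ((K + 2) / κ * wd μ r * M) = (K + 2) * M * EE μ r := by field_simp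
      rw [e5]
      have h6 : (L : ℝ) ^ (ε / 4) * EE' μ (M * r) ≤ M * EE μ r := by
        calc (L : ℝ) ^ (ε / 4) * EE' μ (M * r) ≤ (L : ℝ) ^ (ε / 4) * (K₂ * Real.sqrt M * EE μ r) :=
              mul_le_mul_of_nonneg_left hEE (by positivity)
          _ = (L : ℝ) ^ (ε / 4) * K₂ * (Real.sqrt M * EE μ r) := by ring
          _ ≤ Real.sqrt M * (Real.sqrt M * EE μ r) := mul_le_mul_of_nonneg_right hsq (by positivity)
          _ = M * EE μ r := by rw [← mul_assoc, hMs]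
      have h7 : (L : ℝ) ^ ε ≤ M * EE μ r := by nlinarith
      nlinarith
    -- the bad environments
    have hbad : law μ {η | ¬ Gd μ L r T₀ M (κ * EE μ r / wd μ r) (K * M * EE μ r) ((L : ℝ) ^ δ * wd' μ (M * r))
        ((L : ℝ) ^ (ε / 4) * EE' μ (M * r)) η} ≤ ENNReal.ofReal (3 * L * Real.exp (-(L : ℝ) ^ ε)) +
          ENNReal.ofReal (Real.exp (-(L : ℝ) ^ c₁)) := by
      have h8 : {η | ¬ Gd μ L r T₀ M (κ * EE μ r / wd μ r) (K * M * EE μ r) ((L : ℝ) ^ δ * wd' μ (M * r))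
          ((L : ℝ) ^ (ε / 4) * EE' μ (M * r)) η} ⊆
          (⋃ u ∈ Icc (-(L : ℤ)) L, {η | Real.exp (K * M * EE μ r) < Zt μ (κ * EE μ r / wd μ r) r M η (((T₀ : ℤ), u) : Pt)}) ∪
          {η | ¬ PBox μ L δ (ε / 4) η} := by
        intro η hη
        by_contra hcon
        rw [Set.mem_union, not_or] at hcon
        obtain ⟨hc1, hc2⟩ := hcon
        have hc2' : PBox μ L δ (ε / 4) η := not_not.1 hc2
        refine hη ⟨fun u hu => ?_, fun u hu v hv hvw => ?_⟩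
        · by_contra hlt
          exact hc1 (Set.mem_iUnion₂.2 ⟨u, hu, not_le.1 hlt⟩)
        · have hu' := Finset.mem_Icc.1 hu
          have hv' := Finset.mem_Icc.1 hv
          have huabs : |u| ≤ 2 * (L : ℤ) := by
            rw [abs_le]
            omega
          exact (hc2' T₀ (M * r) (h3.trans hNL) u (by exact_mod_cast huabs) v hv'.1 hv'.2).2.2 hvw
      refine (measure_mono h8).trans ((measure_union_le _ _).trans (add_le_add ?_ (hpb L hLL)))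
      refine (measure_biUnion_finset_le _ _).trans ?_
      have h9 : ∀ u ∈ Icc (-(L : ℤ)) L, law μ {η | Real.exp (K * M * EE μ r) < Zt μ (κ * EE μ r / wd μ r) r M η (((T₀ : ℤ), u) : Pt)} ≤
          ENNReal.ofReal (Real.exp (-(L : ℝ) ^ ε)) := fun u _ => by
        rw [← ofReal_measureReal]
        refine ENNReal.ofReal_le_ofReal ((hprob M (((T₀ : ℤ), u) : Pt)).trans (Real.exp_le_exp.2 ?_))
        linarith
      refine (Finset.sum_le_sum h9).trans ?_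
      rw [Finset.sum_const, nsmul_eq_mul, Int.card_Icc, ← ENNReal.ofReal_natCast, ← ENNReal.ofReal_mul (by positivity)]
      refine ENNReal.ofReal_le_ofReal (mul_le_mul_of_nonneg_right ?_ (Real.exp_nonneg _))
      have : ((L : ℤ) + 1 - -(L : ℤ)).toNat = 2 * L + 1 := by omega
      rw [this]
      push_cast
      linarith
    have hmono1 : Real.exp (-(L : ℝ) ^ ε) ≤ Real.exp (-(L : ℝ) ^ (min ε c₁)) :=
      Real.exp_le_exp.2 (neg_le_neg (Real.rpow_le_rpow_of_exponent_le hLR (min_le_left _ _)))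
    have hmono2 : Real.exp (-(L : ℝ) ^ c₁) ≤ Real.exp (-(L : ℝ) ^ (min ε c₁)) :=
      Real.exp_le_exp.2 (neg_le_neg (Real.rpow_le_rpow_of_exponent_le hLR (min_le_right _ _)))
    refine (add_le_add (ENNReal.ofReal_le_ofReal (Real.exp_le_exp.2 hexp)) hbad).trans ?_
    rw [← ENNReal.ofReal_add (by positivity) (by positivity), ← ENNReal.ofReal_add (by positivity) (by positivity)]
    refine ENNReal.ofReal_le_ofReal ?_
    have hx : 0 < Real.exp (-(L : ℝ) ^ (min ε c₁)) := Real.exp_pos _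
    have h10 : 3 * (L : ℝ) * Real.exp (-(L : ℝ) ^ ε) ≤ 3 * L * Real.exp (-(L : ℝ) ^ (min ε c₁)) :=
      mul_le_mul_of_nonneg_left hmono1 (by positivity)
    have h11 : Real.exp (-(L : ℝ) ^ (min ε c₁)) ≤ L * Real.exp (-(L : ℝ) ^ (min ε c₁)) := le_mul_of_one_le_left hx.le hLR
    linarith
  refine (Finset.sum_le_sum hone).trans ?_
  rw [Finset.sum_const, nsmul_eq_mul, ← ENNReal.ofReal_natCast, ← ENNReal.ofReal_mul (by positivity)]
  refine ENNReal.ofReal_le_ofReal ?_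
  have hcard : (T.card : ℝ) ≤ (2 * L) ^ 3 := by
    have h1 : T.card ≤ (L + 1) * ((L + 1) * (L + 1)) := by
      rw [hT]
      refine (Finset.card_filter_le _ _).trans ?_
      rw [Finset.card_product, Finset.card_product, Finset.card_range]
    have h2 : ((L + 1 : ℕ) : ℝ) ≤ 2 * L := by
      push_cast
      linarith
    have h3 : ((L + 1 : ℕ) : ℝ) * (((L + 1 : ℕ) : ℝ) * ((L + 1 : ℕ) : ℝ)) ≤ (2 * L) ^ 3 := by
      have h4 : (0 : ℝ) ≤ ((L + 1 : ℕ) : ℝ) := by positivity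
      calc ((L + 1 : ℕ) : ℝ) * (((L + 1 : ℕ) : ℝ) * ((L + 1 : ℕ) : ℝ)) = ((L + 1 : ℕ) : ℝ) ^ 3 := by ring
        _ ≤ _ := pow_le_pow_left₀ h4 h2 3
    refine le_trans ?_ h3
    exact_mod_cast h1
  have hx : 0 < Real.exp (-(L : ℝ) ^ (min ε c₁)) := Real.exp_pos _
  have h1 : (T.card : ℝ) * (6 * L * Real.exp (-(L : ℝ) ^ (min ε c₁))) ≤
      48 * (L : ℝ) ^ 4 * Real.exp (-(L : ℝ) ^ (min ε c₁)) := by
    calc (T.card : ℝ) * (6 * L * Real.exp (-(L : ℝ) ^ (min ε c₁))) ≤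
          (2 * L) ^ 3 * (6 * L * Real.exp (-(L : ℝ) ^ (min ε c₁))) := mul_le_mul_of_nonneg_right hcard (by positivity)
      _ = _ := by ring
  exact h1.trans hab

end

end Pool.Agent.W_7d29a1_Z59
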